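import Pool.Agent.W5h24.SD.Defs

/-! (A) the zeta function near the critical line -/

set_option autoImplicit false

open Complex MeasureTheory Set Filter Topology
open Pool.Agent.Results.MP_3d0d30_nt.ReductionsAndLargeValues

namespace Pool.Agent.W5h24.SD

lemma e1 {T v : ℝ} (hT : 1000 ≤ T) : (1 + |v| + 3 * T) * Real.exp (-(v ^ 2)) ≤ 4 * T := by
  have h1 : |v| ≤ Real.exp (v ^ 2) := by
    have h := Real.add_one_le_exp (v ^ 2)
    nlinarith [sq_abs v, sq_nonneg (|v| - 1)]
  have h2 : Real.exp (v ^ 2) * Real.exp (-(v ^ 2)) = 1 := by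
    rw [← Real.exp_add]
    simp
  have h3 : Real.exp (-(v ^ 2)) ≤ 1 := Real.exp_le_one_iff.2 (by nlinarith [sq_nonneg v])
  have h4 := Real.exp_pos (-(v ^ 2))
  have h5 : |v| * Real.exp (-(v ^ 2)) ≤ 1 := by
    calc |v| * Real.exp (-(v ^ 2)) ≤ Real.exp (v ^ 2) * Real.exp (-(v ^ 2)) := by gcongr
      _ = 1 := h2
  nlinarith

lemma e2 {T v : ℝ} (hT : 1000 ≤ T) (hv : Real.log T ≤ |v|) :
    (1 + |v| + 3 * T) * Real.exp (-(v ^ 2)) ≤ 4 := by
  have hL := log_ge hT
  have hT0 : 0 < T := by linarith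
  have h1 : |v| ≤ Real.exp (v ^ 2 / 2) := by
    have h := Real.add_one_le_exp (v ^ 2 / 2)
    nlinarith [sq_abs v, sq_nonneg (|v| - 1)]
  have h2 : Real.exp (v ^ 2 / 2) * Real.exp (-(v ^ 2 / 2)) = 1 := by
    rw [← Real.exp_add]
    simp
  have h3 : Real.exp (-(v ^ 2 / 2)) ≤ 1 := Real.exp_le_one_iff.2 (by nlinarith [sq_nonneg v])
  have h4 := Real.exp_pos (-(v ^ 2 / 2))
  have h5 : |v| * Real.exp (-(v ^ 2 / 2)) ≤ 1 := by
    calc |v| * Real.exp (-(v ^ 2 / 2)) ≤ Real.exp (v ^ 2 / 2) * Real.exp (-(v ^ 2 / 2)) := by gcongr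
      _ = 1 := h2
  have h6 : Real.exp (-(v ^ 2 / 2)) ≤ 1 / T := by
    calc Real.exp (-(v ^ 2 / 2)) ≤ Real.exp (-Real.log T) := by
          apply Real.exp_le_exp.2
          nlinarith [sq_abs v]
      _ = 1 / T := by rw [Real.exp_neg, Real.exp_log hT0, one_div]
  have h7 : (1 + |v| + 3 * T) * Real.exp (-(v ^ 2 / 2)) ≤ 4 * T := by nlinarith
  have h8 : Real.exp (-(v ^ 2)) = Real.exp (-(v ^ 2 / 2)) * Real.exp (-(v ^ 2 / 2)) := by
    rw [← Real.exp_add]
    congr 1
    ring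
  rw [h8, ← mul_assoc]
  calc (1 + |v| + 3 * T) * Real.exp (-(v ^ 2 / 2)) * Real.exp (-(v ^ 2 / 2)) ≤
        4 * T * (1 / T) := by gcongr
    _ = 4 := by field_simp

lemma side {C T t B s : ℝ} (hC : 1 ≤ C)
    (hz : ∀ w : ℂ, 1 / 8 ≤ w.re → w.re ≤ 7 / 8 → ‖riemannZeta w‖ ≤ C * (1 + |w.im|))
    (hs : s = 1 ∨ s = -1) (hT : 1000 ≤ T) (ht0 : 0 ≤ t) (ht : t ≤ 3 * T) (hB : 1 ≤ B)
    (hu : ∀ u : ℝ, |u - t| ≤ Real.log T → Z u ≤ B) {δ : ℝ} (h0 : 0 ≤ δ) (h1 : δ ≤ 3 / 8) :
    ‖riemannZeta (((1 / 2 + s * δ : ℝ) : ℂ) + t * I)‖ ≤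
      10 * C * B * Real.exp (8 / 3 * Real.log T * δ) := by
  have hL := log_ge hT
  have hT0 : 0 < T := by linarith
  have hs2 : s * s = 1 := by rcases hs with h | h <;> rw [h] <;> norm_num
  have hsa : |s| = 1 := by rcases hs with h | h <;> rw [h] <;> norm_num
  set L := Real.log T with hLdef
  let G : ℂ → ℂ := fun w => riemannZeta (1 / 2 + s * w) *
    Complex.exp ((s * w - t * I) ^ 2 - ((8 / 3 * L : ℝ) : ℂ) * w)
  have hre : ∀ w : ℂ, ((1 / 2 : ℂ) + s * w).re = 1 / 2 + s * w.re := by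
    intro w
    simp [Complex.add_re, Complex.mul_re]
  have him : ∀ w : ℂ, ((1 / 2 : ℂ) + s * w).im = s * w.im := by
    intro w
    simp [Complex.add_im, Complex.mul_im]
  have hE : ∀ w : ℂ, ‖Complex.exp ((s * w - t * I) ^ 2 - ((8 / 3 * L : ℝ) : ℂ) * w)‖ =
      Real.exp (w.re ^ 2 - (s * w.im - t) ^ 2 - 8 / 3 * L * w.re) := by
    intro w
    rw [Complex.norm_exp]
    congr 1
    have e : ((s * w - t * I) ^ 2 - ((8 / 3 * L : ℝ) : ℂ) * w).re =
        (s * w.re) ^ 2 - (s * w.im - t) ^ 2 - 8 / 3 * L * w.re := by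
      rw [sq, Complex.sub_re, Complex.mul_re, Complex.re_ofReal_mul, Complex.sub_re,
        Complex.sub_im, Complex.re_ofReal_mul, Complex.im_ofReal_mul]
      simp
      ring
    rw [e]
    have : (s * w.re) ^ 2 = w.re ^ 2 := by
      calc (s * w.re) ^ 2 = (s * s) * w.re ^ 2 := by ring
        _ = w.re ^ 2 := by rw [hs2, one_mul]
    rw [this]
  have hrange : ∀ w : ℂ, 0 ≤ w.re → w.re ≤ 3 / 8 →
      1 / 8 ≤ ((1 / 2 : ℂ) + s * w).re ∧ ((1 / 2 : ℂ) + s * w).re ≤ 7 / 8 := by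
    intro w hw0 hw1
    rw [hre]
    rcases hs with h | h <;> rw [h] <;> constructor <;> linarith
  have hzw : ∀ w : ℂ, 0 ≤ w.re → w.re ≤ 3 / 8 →
      ‖riemannZeta (1 / 2 + s * w)‖ ≤ C * (1 + |w.im|) := by
    intro w hw0 hw1
    have h := hz _ (hrange w hw0 hw1).1 (hrange w hw0 hw1).2
    rwa [him, abs_mul, hsa, one_mul] at h
  have hy : ∀ w : ℂ, 1 + |w.im| ≤ 1 + |s * w.im - t| + 3 * T := by
    intro w
    have h2 : |w.im| = |s * w.im| := by rw [abs_mul, hsa, one_mul]
    have h3 : |s * w.im| ≤ |s * w.im - t| + |t| := by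
      calc |s * w.im| = |(s * w.im - t) + t| := by ring_nf
        _ ≤ _ := abs_add_le _ _
    rw [abs_of_nonneg ht0] at h3
    linarith
  -- differentiability
  have hd : DiffContOnCl ℂ G (re ⁻¹' Ioo 0 (3 / 8)) := by
    apply DifferentiableOn.diffContOnCl
    rw [Complex.closure_preimage_re, closure_Ioo (by norm_num)]
    intro w hw
    have hw0 : 0 ≤ w.re := hw.1
    have hw1 : w.re ≤ 3 / 8 := hw.2
    have hne : (1 / 2 : ℂ) + s * w ≠ 1 := by
      intro h
      have := (hrange w hw0 hw1).2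
      rw [h] at this
      norm_num at this
    have hA : DifferentiableAt ℂ (fun w : ℂ => riemannZeta (1 / 2 + s * w)) w :=
      DifferentiableAt.comp (f := fun w : ℂ => (1 / 2 : ℂ) + s * w) w
        (differentiableAt_riemannZeta hne) (by fun_prop)
    have hBd : DifferentiableAt ℂ (fun w : ℂ =>
      Complex.exp ((s * w - t * I) ^ 2 - ((8 / 3 * L : ℝ) : ℂ) * w)) w := by fun_prop
    exact (hA.mul hBd).differentiableWithinAt
  -- the growth
  have hgr : ∃ c < Real.pi / (3 / 8 - 0), ∃ B : ℝ,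
      G =O[comap (_root_.abs ∘ im) atTop ⊓ 𝓟 (re ⁻¹' Ioo 0 (3 / 8))]
        fun z ↦ Real.exp (B * Real.exp (c * |z.im|)) := by
    refine ⟨1, ?_, 1, ?_⟩
    · rw [lt_div_iff₀ (by norm_num)]
      have := Real.pi_gt_three
      linarith
    · apply Asymptotics.IsBigO.of_bound (C * 2)
      rw [eventually_inf_principal]
      refine Eventually.of_forall fun w hw => ?_
      have hw0 : 0 ≤ w.re := hw.1.le
      have hw1 : w.re ≤ 3 / 8 := hw.2.le
      rw [norm_mul, hE, Real.norm_of_nonneg (Real.exp_nonneg _), one_mul, one_mul]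
      have h2 := hzw w hw0 hw1
      have h3 : Real.exp (w.re ^ 2 - (s * w.im - t) ^ 2 - 8 / 3 * L * w.re) ≤ 2 := by
        calc Real.exp (w.re ^ 2 - (s * w.im - t) ^ 2 - 8 / 3 * L * w.re) ≤
              Real.exp (9 / 64) := by
              apply Real.exp_le_exp.2
              have : 0 ≤ 8 / 3 * L * w.re := by positivity
              nlinarith [sq_nonneg (s * w.im - t)]
          _ ≤ Real.exp (Real.log 2) := by
              apply Real.exp_le_exp.2
              have := Real.log_two_gt_d9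
              linarith
          _ = 2 := Real.exp_log (by norm_num)
      have h4 : 1 + |w.im| ≤ Real.exp (Real.exp |w.im|) := by
        have h5 := Real.add_one_le_exp |w.im|
        have h6 := Real.add_one_le_exp (Real.exp |w.im|)
        linarith
      calc ‖riemannZeta (1 / 2 + s * w)‖ *
            Real.exp (w.re ^ 2 - (s * w.im - t) ^ 2 - 8 / 3 * L * w.re)
          ≤ (C * (1 + |w.im|)) * 2 := by gcongr
        _ = C * 2 * (1 + |w.im|) := by ring
        _ ≤ C * 2 * Real.exp (Real.exp |w.im|) := by gcongr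
  -- the lines
  have hl0 : ∀ w : ℂ, w.re = 0 → ‖G w‖ ≤ 10 * C * B := by
    intro w hw
    rw [norm_mul, hE, hw]
    have h2 := hzw w hw.ge (by rw [hw]; norm_num)
    have e : Real.exp ((0:ℝ) ^ 2 - (s * w.im - t) ^ 2 - 8 / 3 * L * 0) =
        Real.exp (-((s * w.im - t) ^ 2)) := by
      congr 1
      ring
    rw [e]
    rcases le_total |s * w.im - t| L with h | h
    · have h3 : ‖riemannZeta (1 / 2 + s * w)‖ ≤ B := by
        have h4 := hu (s * w.im) h
        unfold Z at h4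
        have h5 : (1 / 2 : ℂ) + s * w = 1 / 2 + ((s * w.im : ℝ) : ℂ) * I := by
          apply Complex.ext
          · simp [hw]
          · simp
        rw [h5]
        exact h4
      have h6 : Real.exp (-((s * w.im - t) ^ 2)) ≤ 1 :=
        Real.exp_le_one_iff.2 (by nlinarith [sq_nonneg (s * w.im - t)])
      calc ‖riemannZeta (1 / 2 + s * w)‖ * Real.exp (-((s * w.im - t) ^ 2)) ≤ B * 1 := by gcongr
        _ ≤ 10 * C * B := by nlinarith
    · calc ‖riemannZeta (1 / 2 + s * w)‖ * Real.exp (-((s * w.im - t) ^ 2))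
          ≤ C * (1 + |s * w.im - t| + 3 * T) * Real.exp (-((s * w.im - t) ^ 2)) := by
            apply mul_le_mul_of_nonneg_right _ (Real.exp_nonneg _)
            refine h2.trans ?_
            have := hy w
            gcongr
        _ = C * ((1 + |s * w.im - t| + 3 * T) * Real.exp (-((s * w.im - t) ^ 2))) := by ring
        _ ≤ C * 4 := by
            have := e2 hT h
            gcongr
        _ ≤ 10 * C * B := by nlinarith
  have hl1 : ∀ w : ℂ, w.re = 3 / 8 → ‖G w‖ ≤ 10 * C * B := by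
    intro w hw
    rw [norm_mul, hE, hw]
    have h2 := hzw w (by rw [hw]; norm_num) hw.le
    have e : Real.exp ((3 / 8 : ℝ) ^ 2 - (s * w.im - t) ^ 2 - 8 / 3 * L * (3 / 8)) =
        Real.exp (-((s * w.im - t) ^ 2)) * (Real.exp (9 / 64) * (1 / T)) := by
      have h3 : (1 / T : ℝ) = Real.exp (-L) := by
        rw [Real.exp_neg, Real.exp_log hT0, one_div]
      rw [h3, ← Real.exp_add, ← Real.exp_add]
      congr 1
      ring
    rw [e]
    have h4 : Real.exp (9 / 64 : ℝ) ≤ 2 := by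
      calc Real.exp (9 / 64 : ℝ) ≤ Real.exp (Real.log 2) := by
              apply Real.exp_le_exp.2
              have := Real.log_two_gt_d9
              linarith
        _ = 2 := Real.exp_log (by norm_num)
    calc ‖riemannZeta (1 / 2 + s * w)‖ *
          (Real.exp (-((s * w.im - t) ^ 2)) * (Real.exp (9 / 64) * (1 / T)))
        ≤ C * (1 + |s * w.im - t| + 3 * T) *
          (Real.exp (-((s * w.im - t) ^ 2)) * (2 * (1 / T))) := by
          have h5 : ‖riemannZeta (1 / 2 + s * w)‖ ≤ C * (1 + |s * w.im - t| + 3 * T) := by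
            refine h2.trans ?_
            have := hy w
            gcongr
          gcongr
      _ = C * ((1 + |s * w.im - t| + 3 * T) * Real.exp (-((s * w.im - t) ^ 2))) *
            (2 * (1 / T)) := by ring
      _ ≤ C * (4 * T) * (2 * (1 / T)) := by
          have := e1 (v := s * w.im - t) hT
          gcongr
      _ = 8 * C := by
          field_simp
          ring
      _ ≤ 10 * C * B := by nlinarith
  -- the conclusion
  have hmain := PhragmenLindelof.vertical_strip (f := G) (a := 0) (b := 3 / 8)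
    (C := 10 * C * B) hd hgr hl0 hl1 (z := (δ : ℂ) + ((s * t : ℝ) : ℂ) * I) (by simp [h0])
    (by simpa using h1)
  rw [norm_mul, hE] at hmain
  have e3 : (1 / 2 : ℂ) + s * ((δ : ℂ) + ((s * t : ℝ) : ℂ) * I) =
      ((1 / 2 + s * δ : ℝ) : ℂ) + t * I := by
    have h2 : (s : ℂ) * s = 1 := by
      rw [← Complex.ofReal_mul, hs2, Complex.ofReal_one]
    push_cast
    linear_combination (t * I) * h2
  have e4 : ((δ : ℂ) + ((s * t : ℝ) : ℂ) * I).re = δ := by simp
  have e5 : ((δ : ℂ) + ((s * t : ℝ) : ℂ) * I).im = s * t := by simp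
  rw [e3, e4, e5] at hmain
  have e6 : s * (s * t) - t = 0 := by
    rw [← mul_assoc, hs2]
    ring
  rw [e6] at hmain
  have h7 : 1 ≤ Real.exp (δ ^ 2) := Real.one_le_exp (sq_nonneg δ)
  have h8 : Real.exp (δ ^ 2 - 0 ^ 2 - 8 / 3 * L * δ) =
      Real.exp (δ ^ 2) * (Real.exp (8 / 3 * L * δ))⁻¹ := by
    rw [← Real.exp_neg, ← Real.exp_add]
    congr 1
    ring
  rw [h8] at hmain
  have h9 := Real.exp_pos (8 / 3 * L * δ)
  set N := ‖riemannZeta (((1 / 2 + s * δ : ℝ) : ℂ) + t * I)‖ with hN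
  have hN0 : 0 ≤ N := norm_nonneg _
  calc N = N * (1 * (Real.exp (8 / 3 * L * δ))⁻¹) * Real.exp (8 / 3 * L * δ) := by
        field_simp
    _ ≤ N * (Real.exp (δ ^ 2) * (Real.exp (8 / 3 * L * δ))⁻¹) * Real.exp (8 / 3 * L * δ) := by
        gcongr
    _ ≤ 10 * C * B * Real.exp (8 / 3 * L * δ) := by gcongr

/-- **(A)** -/
theorem strip : S_STRIP := by
  obtain ⟨C₀, hC₀, hz₀⟩ := Pool.Agent.H448R2.GC.zeta_growth_mid
  have hC1 : 1 ≤ max C₀ 1 := le_max_right _ _
  have hz : ∀ w : ℂ, 1 / 8 ≤ w.re → w.re ≤ 7 / 8 →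
      ‖riemannZeta w‖ ≤ max C₀ 1 * (1 + |w.im|) := by
    intro w h1 h2
    refine (hz₀ w h1 h2).trans ?_
    have := le_max_left C₀ 1
    gcongr
  refine ⟨150 * max C₀ 1, 1000, by linarith, le_rfl, ?_⟩
  intro T hT t ht10 ht B hB hu σ hσ
  have hL := log_ge hT
  have hB0 : 0 ≤ B := by linarith
  have hinv : 1 / Real.log T ≤ 3 / 8 := by
    rw [div_le_iff₀ (by linarith)]
    linarith
  have key : ∀ s : ℝ, s = 1 ∨ s = -1 → ∀ δ : ℝ, 0 ≤ δ → δ ≤ 1 / Real.log T → σ = 1 / 2 + s * δ →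
      ‖riemannZeta (σ + t * I)‖ ≤ 150 * max C₀ 1 * B := by
    intro s hs δ h0 h1 he
    have h := side hC1 hz hs hT (by linarith) ht hB hu h0 (h1.trans hinv)
    rw [← he] at h
    refine h.trans ?_
    have h2 : Real.exp (8 / 3 * Real.log T * δ) ≤ 15 := by
      calc Real.exp (8 / 3 * Real.log T * δ) ≤ Real.exp (8 / 3) := by
            apply Real.exp_le_exp.2
            calc 8 / 3 * Real.log T * δ ≤ 8 / 3 * Real.log T * (1 / Real.log T) := by
                  gcongr
              _ = 8 / 3 := by field_simp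
        _ ≤ 15 := by
            have h3 := Real.exp_one_lt_d9
            have h4 : Real.exp (8 / 3 : ℝ) ^ 3 = Real.exp 1 ^ 8 := by
              rw [← Real.exp_nat_mul, ← Real.exp_nat_mul]
              norm_num
            have h5 : Real.exp 1 ^ 8 ≤ (2.7182818286 : ℝ) ^ 8 :=
              pow_le_pow_left₀ (Real.exp_nonneg _) h3.le 8
            by_contra hcon
            push Not at hcon
            have h6 : (15 : ℝ) ^ 3 ≤ Real.exp (8 / 3 : ℝ) ^ 3 :=
              pow_le_pow_left₀ (by norm_num) hcon.le 3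
            rw [← h4] at h5
            have h7 : (2.7182818286 : ℝ) ^ 8 ≤ 3000 := by norm_num
            have h8 : (15 : ℝ) ^ 3 = 3375 := by norm_num
            rw [h8] at h6
            linarith
    calc 10 * max C₀ 1 * B * Real.exp (8 / 3 * Real.log T * δ) ≤ 10 * max C₀ 1 * B * 15 := by
          gcongr
      _ = _ := by ring
  rcases le_total (1 / 2) σ with h | h
  · refine key 1 (Or.inl rfl) (σ - 1 / 2) (by linarith) ((le_abs_self _).trans hσ) (by ring)
  · refine key (-1) (Or.inr rfl) (1 / 2 - σ) (by linarith) ?_ (by ring)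
    rw [abs_le] at hσ
    linarith [hσ.1]

end Pool.Agent.W5h24.SD
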