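import Pool.Agent.W5h24.SD.A

/-! (B) large values persist -/

set_option autoImplicit false

open Complex MeasureTheory Set Filter Topology
open Pool.Agent.Results.MP_3d0d30_nt.ReductionsAndLargeValues

namespace Pool.Agent.W5h24.SD

/-- near a point where the zeta function is almost maximal it is Lipschitz -/
lemma lip_near {C T p V : ℝ} (hC : 1 ≤ C) (hT : 1000 ≤ T) (hp : 11 ≤ p) (hp2 : p ≤ 2 * T)
    (hV : 1 ≤ V)
    (hstrip : ∀ t : ℝ, 10 ≤ t → t ≤ 3 * T →
      ∀ B : ℝ, 1 ≤ B → (∀ u : ℝ, |u - t| ≤ Real.log T → Z u ≤ B) →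
      ∀ σ : ℝ, |σ - 1 / 2| ≤ 1 / Real.log T → ‖riemannZeta (σ + t * I)‖ ≤ C * B)
    (hloc : ∀ u : ℝ, |u - p| ≤ Real.log T + 1 → Z u ≤ 2 * V) :
    ∀ s ∈ Icc p (p + 1 / 2), |Z s - Z p| ≤ 2 * C * V * Real.log T * |s - p| := by
  have hL := log_ge hT
  set L := Real.log T with hLdef
  have hL0 : 0 < L := by linarith
  have hLi : 1 / L ≤ 1 / 2 := by
    apply one_div_le_one_div_of_le (by norm_num)
    linarith
  intro s hs
  have key : ∀ u ∈ Icc p (p + 1 / 2), ‖deriv riemannZeta (1 / 2 + u * I) * I‖ ≤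
      2 * C * V * L := by
    intro u hu
    have hre : ∀ z : ℂ, z ∈ Metric.closedBall (1 / 2 + (u:ℂ) * I) (1 / L) →
        |z.re - 1 / 2| ≤ 1 / L ∧ |z.im - u| ≤ 1 / L := by
      intro z hz
      rw [Metric.mem_closedBall, dist_eq_norm] at hz
      have h1 := (Complex.abs_re_le_norm (z - (1 / 2 + (u:ℂ) * I))).trans hz
      have h2 := (Complex.abs_im_le_norm (z - (1 / 2 + (u:ℂ) * I))).trans hz
      have e1 : (z - (1 / 2 + (u:ℂ) * I)).re = z.re - 1 / 2 := by simp
      have e2 : (z - (1 / 2 + (u:ℂ) * I)).im = z.im - u := by simp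
      rw [e1] at h1
      rw [e2] at h2
      exact ⟨h1, h2⟩
    have hd : DiffContOnCl ℂ riemannZeta (Metric.ball (1 / 2 + (u:ℂ) * I) (1 / L)) := by
      refine DifferentiableOn.diffContOnCl_ball (U := Metric.closedBall (1 / 2 + (u:ℂ) * I) (1 / L))
        (fun z hz' => ?_) subset_rfl
      refine (differentiableAt_riemannZeta ?_).differentiableWithinAt
      intro h
      have h3 := (hre z hz').2
      rw [h] at h3
      simp only [Complex.one_im, zero_sub, abs_neg] at h3
      have h4 : u ≤ |u| := le_abs_self u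
      linarith [hu.1]
    have h3 := Complex.norm_deriv_le_of_forall_mem_sphere_norm_le (c := 1 / 2 + (u:ℂ) * I)
      (R := 1 / L) (C := 2 * C * V) (by positivity) hd (fun z hz' => by
        have h4 := hre z (Metric.sphere_subset_closedBall hz')
        have h5 := abs_le.1 h4.2
        have h6 := hstrip z.im (by linarith [hu.1]) (by linarith [hu.2]) (2 * V) (by linarith)
          (fun w hw => hloc w (by
            have h7 := abs_le.1 hw
            rw [abs_le]
            constructor <;> linarith [hu.1, hu.2])) z.re h4.1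
        have h8 : (z.re : ℂ) + z.im * I = z := Complex.re_add_im z
        rw [h8] at h6
        calc ‖riemannZeta z‖ ≤ C * (2 * V) := h6
          _ = 2 * C * V := by ring)
    rw [norm_mul, Complex.norm_I, mul_one]
    refine h3.trans (le_of_eq ?_)
    field_simp
  have h := Convex.norm_image_sub_le_of_norm_hasDerivWithin_le
    (f := fun u : ℝ => riemannZeta (1 / 2 + u * I))
    (f' := fun u : ℝ => deriv riemannZeta (1 / 2 + u * I) * I) (s := Icc p (p + 1 / 2))
    (fun u _ => by
      have hne : (1 / 2 + (u:ℂ) * I) ≠ 1 := by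
        intro h
        have := congrArg Complex.re h
        simp at this
      have h1 := (differentiableAt_riemannZeta hne).hasDerivAt
      have h2 : HasDerivAt (fun v : ℝ => (1 / 2 + (v:ℂ) * I)) I u := by
        have h3 : HasDerivAt (fun v : ℝ => (v:ℂ)) 1 u := Complex.ofRealCLM.hasDerivAt
        have h4 := (h3.mul_const I).const_add (1 / 2 : ℂ)
        simpa using h4
      exact (h1.comp_of_eq u h2 rfl).hasDerivWithinAt) key (convex_Icc p (p + 1 / 2))
    (left_mem_Icc.2 (by linarith)) hs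
  have h5 : |Z s - Z p| ≤ ‖riemannZeta (1 / 2 + s * I) - riemannZeta (1 / 2 + p * I)‖ :=
    abs_norm_sub_norm_le _ _
  refine (h5.trans h).trans ?_
  rw [Real.norm_eq_abs]

lemma log_pow_le : ∃ T₁ : ℝ, ∀ T : ℝ, T₁ ≤ T → Real.log T ^ 4 ≤ T := by
  have h1 : ∀ᶠ y : ℝ in atTop, ‖Real.log y ^ 4‖ ≤ 1 * ‖id y‖ :=
    (Real.isLittleO_pow_log_id_atTop (n := 4)).def (by norm_num)
  obtain ⟨T₁, hT₁⟩ := eventually_atTop.1 (h1.and (eventually_ge_atTop 1))
  refine ⟨T₁, fun T hT => ?_⟩
  obtain ⟨h2, h3⟩ := hT₁ T hT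
  rw [one_mul, id, Real.norm_of_nonneg (by linarith : (0:ℝ) ≤ T)] at h2
  exact (le_abs_self _).trans h2

/-- **(B)** -/
theorem pers : S_PERS := by
  obtain ⟨C, T₁, hC, hT₁, hstrip⟩ := strip
  obtain ⟨T₂, hT₂⟩ := log_pow_le
  obtain ⟨C₀, hC₀, hz₀⟩ := Pool.Agent.H448R2.GC.zeta_growth_mid
  have hC0 : 0 < C := by linarith
  refine ⟨1 / (4 * C), max (max T₁ T₂) (max 1000 (3 * C₀)), by positivity, ?_,
    (le_max_left _ _).trans (le_max_right _ _), ?_⟩
  · rw [div_le_one (by positivity)]
    linarith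
  intro T hT t ht1 ht2 hZ
  have g1 : T₁ ≤ T := (le_max_left _ _).trans ((le_max_left _ _).trans hT)
  have g2 : T₂ ≤ T := (le_max_right _ _).trans ((le_max_left _ _).trans hT)
  have g3 : 1000 ≤ T := (le_max_left _ _).trans ((le_max_right _ _).trans hT)
  have g4 : 3 * C₀ ≤ T := (le_max_right _ _).trans ((le_max_right _ _).trans hT)
  have hL := log_ge g3
  have hLT := hT₂ T g2
  have hT0 : 0 < T := by linarith
  set L := Real.log T with hLdef
  have hL0 : 0 < L := by linarith
  have hL2 : 47 ≤ L ^ 2 := by nlinarith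
  have hL3 : 6 * L ^ 2 ≤ L ^ 3 := by nlinarith
  have hL4 : 6 * L ^ 3 ≤ L ^ 4 := by
    have : 0 < L ^ 3 := by positivity
    nlinarith
  -- the maximum of `Z u * exp (- |u - t| / L ^ 2)`
  have hφ : Continuous fun u : ℝ => Z u * Real.exp (-(|u - t| / L ^ 2)) := by
    apply Z_cont.mul
    fun_prop
  obtain ⟨p, hpK, hpmax⟩ := (isCompact_Icc (a := t - L ^ 4) (b := t + L ^ 4)).exists_isMaxOn
    ⟨t, ⟨by linarith [show 0 < L ^ 4 by positivity], by linarith [show 0 < L ^ 4 by positivity]⟩⟩
    hφ.continuousOn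
  have hmax : ∀ u ∈ Icc (t - L ^ 4) (t + L ^ 4), Z u * Real.exp (-(|u - t| / L ^ 2)) ≤
      Z p * Real.exp (-(|p - t| / L ^ 2)) := fun u hu => hpmax hu
  have hL40 : 0 < L ^ 4 := by positivity
  have h1 : Z t ≤ Z p * Real.exp (-(|p - t| / L ^ 2)) := by
    have h := hmax t ⟨by linarith, by linarith⟩
    rwa [sub_self, abs_zero, zero_div, neg_zero, Real.exp_zero, mul_one] at h
  have h2 : Z t * Real.exp (|p - t| / L ^ 2) ≤ Z p := by
    calc Z t * Real.exp (|p - t| / L ^ 2) ≤
          Z p * Real.exp (-(|p - t| / L ^ 2)) * Real.exp (|p - t| / L ^ 2) := by gcongr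
      _ = Z p := by
        rw [mul_assoc, ← Real.exp_add]
        simp
  have h3 : Z t ≤ Z p := by
    have : 1 ≤ Real.exp (|p - t| / L ^ 2) := Real.one_le_exp (by positivity)
    nlinarith [Z_nonneg t]
  have hp0 : 0 ≤ p := by linarith [hpK.1]
  have h4 : Z p ≤ T ^ 2 := by
    have h5 := hz₀ (1 / 2 + p * I) (by simp; norm_num) (by simp; norm_num)
    have e : (1 / 2 + (p:ℂ) * I).im = p := by simp
    rw [e, abs_of_nonneg hp0] at h5
    calc Z p ≤ C₀ * (1 + p) := h5
      _ ≤ C₀ * (3 * T) := by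
        have := hpK.2
        gcongr
        linarith
      _ = 3 * C₀ * T := by ring
      _ ≤ T * T := by gcongr
      _ = T ^ 2 := by ring
  have h5 : |p - t| ≤ 2 * L ^ 3 := by
    have h6 : Real.exp (|p - t| / L ^ 2) ≤ Real.exp (2 * L) := by
      have e : Real.exp (2 * L) = T ^ 2 := by
        rw [two_mul, Real.exp_add, Real.exp_log hT0]
        ring
      rw [e]
      have h7 := Real.exp_pos (|p - t| / L ^ 2)
      nlinarith
    have h8 := Real.exp_le_exp.1 h6
    rw [div_le_iff₀ (by positivity)] at h8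
    calc |p - t| ≤ 2 * L * L ^ 2 := h8
      _ = 2 * L ^ 3 := by ring
  have h6 := abs_le.1 h5
  -- the local bound
  have hloc : ∀ u : ℝ, |u - p| ≤ L + 1 → Z u ≤ 2 * Z p := by
    intro u hu
    have hu2 := abs_le.1 hu
    have huK : u ∈ Icc (t - L ^ 4) (t + L ^ 4) := by
      constructor <;> nlinarith
    have h7 := hmax u huK
    have h8 : Z u ≤ Z p * Real.exp ((L + 1) / L ^ 2) := by
      calc Z u = Z u * Real.exp (-(|u - t| / L ^ 2)) * Real.exp (|u - t| / L ^ 2) := by
            rw [mul_assoc, ← Real.exp_add]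
            simp
        _ ≤ Z p * Real.exp (-(|p - t| / L ^ 2)) * Real.exp (|u - t| / L ^ 2) := by gcongr
        _ = Z p * Real.exp ((|u - t| - |p - t|) / L ^ 2) := by
            rw [mul_assoc, ← Real.exp_add]
            congr 2
            ring
        _ ≤ Z p * Real.exp ((L + 1) / L ^ 2) := by
            have h9 : |u - t| - |p - t| ≤ L + 1 := by
              have h10 := abs_sub_abs_le_abs_sub (u - t) (p - t)
              have e : u - t - (p - t) = u - p := by ring
              rw [e] at h10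
              linarith
            have := Z_nonneg p
            gcongr
    have h9 : Real.exp ((L + 1) / L ^ 2) ≤ 2 := by
      calc Real.exp ((L + 1) / L ^ 2) ≤ Real.exp (Real.log 2) := by
            apply Real.exp_le_exp.2
            have h10 := Real.log_two_gt_d9
            have h11 : (L + 1) / L ^ 2 ≤ 1 / 2 := by
              rw [div_le_iff₀ (by positivity)]
              nlinarith
            linarith
        _ = 2 := Real.exp_log (by norm_num)
    calc Z u ≤ Z p * Real.exp ((L + 1) / L ^ 2) := h8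
      _ ≤ Z p * 2 := by
        have := Z_nonneg p
        gcongr
      _ = 2 * Z p := by ring
  have hp11 : 11 ≤ p := by nlinarith
  have hp2 : p ≤ 2 * T := by linarith [hpK.2]
  have hlip := lip_near hC g3 hp11 hp2 (hZ.trans h3) (hstrip T g1) hloc
  have hc : 1 / (4 * C) / L ≤ 1 / 2 := by
    rw [div_div, div_le_div_iff₀ (by positivity) (by norm_num)]
    nlinarith
  refine ⟨p, p + 1 / (4 * C) / L, hpK.1, rfl, by nlinarith, fun s hs => ?_⟩
  have h7 := hlip s ⟨hs.1, by linarith [hs.2]⟩
  have h8 : |s - p| ≤ 1 / (4 * C) / L := by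
    rw [abs_le]
    constructor
    · have : 0 < 1 / (4 * C) / L := by positivity
      linarith [hs.1]
    · linarith [hs.2]
  have hZp := Z_nonneg p
  have h9 : 2 * C * Z p * L * |s - p| ≤ Z p / 2 := by
    calc 2 * C * Z p * L * |s - p| ≤ 2 * C * Z p * L * (1 / (4 * C) / L) := by gcongr
      _ = Z p / 2 := by
        field_simp
        ring
  have h10 := abs_le.1 (h7.trans h9)
  linarith [h10.1]

end Pool.Agent.W5h24.SD
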