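import Pool.Agent.W5h24.SD.Defs

/-!
MP_3d0d30_nt, task (C): one good pair bounds the zeta function.
-/

set_option autoImplicit false

open Complex MeasureTheory Set Filter Topology
open Pool.Agent.Results.MP_3d0d30_nt.ReductionsAndLargeValues

namespace Pool.Agent.W5h24.SD

/-- TASK (C) -/
theorem sup_of_pers : S_PERS → S_SUP := by
  rintro ⟨c, T₀, hc0, hc1, hT₀, hp⟩
  obtain ⟨C0, hC0, hz⟩ := Pool.Agent.H448R2.GC.zeta_growth_mid
  set D : ℝ := max 0 (Real.log (3 * C0)) with hD
  have hD0 : 0 ≤ D := le_max_left _ _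
  have hD1 : Real.log (3 * C0) ≤ D := le_max_right _ _
  set e : ℝ := - Real.log c with he
  have he0 : 0 ≤ e := by
    have := Real.log_nonpos hc0.le hc1
    linarith
  refine ⟨5 + D + e, T₀, by linarith, hT₀, fun T hT T' hT1 hT2 k hk1 hk2 hg t ht => ?_⟩
  have hT3 : 1000 ≤ T := hT₀.trans hT
  have hL := log_ge hT3
  have hl := loglog_ge hT3
  set L : ℝ := Real.log T with hLdef
  set l : ℝ := Real.log L with hldef
  have hL0 : 0 < L := by linarith
  have hk0 : 0 < k := by linarith
  have hexpl : Real.exp l = L := Real.exp_log hL0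
  have hmain : 0 ≤ (L + k ^ 2 * l) / (2 * k) := by positivity
  rcases lt_or_ge (Z t) 1 with h | h
  · -- small values
    refine h.le.trans ?_
    rw [Real.one_le_exp_iff]
    have : 0 ≤ (5 + D + e) * l := by
      apply mul_nonneg <;> linarith
    linarith
  rcases lt_or_ge t (2 * L ^ 4) with h2 | h2
  · -- small `t`
    have h3 : Z t ≤ C0 * (1 + |t|) := by
      have h4 := hz (1 / 2 + t * I) (by simp; norm_num) (by simp; norm_num)
      have e1 : (1 / 2 + (t:ℂ) * I).im = t := by simp
      rw [e1] at h4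
      exact h4
    rw [abs_of_nonneg ht.1] at h3
    have h5 : (1:ℝ) ≤ L ^ 4 := one_le_pow₀ (by linarith)
    have h6 : Z t ≤ (3 * C0) * L ^ 4 := by
      calc Z t ≤ C0 * (1 + t) := h3
        _ ≤ C0 * (3 * L ^ 4) := by gcongr; linarith
        _ = _ := by ring
    have h7 : (3 * C0) * L ^ 4 = Real.exp (Real.log (3 * C0) + 4 * l) := by
      rw [Real.exp_add, Real.exp_log (by positivity), show (4:ℝ) * l = ((4:ℕ):ℝ) * l by norm_num,
        Real.exp_nat_mul, hexpl]
    rw [h7] at h6
    refine h6.trans (Real.exp_le_exp.2 ?_)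
    have h8 : D ≤ D * l := le_mul_of_one_le_right hD0 (by linarith)
    have h9 : 0 ≤ e * l := by apply mul_nonneg <;> linarith
    linarith
  -- large values
  obtain ⟨a, b, ha, hb, hb2, hab⟩ := hp T hT t h2 ht.2 h
  have hcL : 0 < c / L := by positivity
  have hL4 : 0 < L ^ 4 := by positivity
  have ha0 : 0 ≤ a := by linarith
  have hb3 : a ≤ b := by linarith
  have hb4 : b ≤ T' := by linarith [ht.2]
  have hcont : Continuous fun s : ℝ => Z s ^ (2 * k) :=
    Z_cont.rpow_const fun x => Or.inr (by linarith)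
  have hint : ∀ a b : ℝ, IntervalIntegrable (fun s : ℝ => Z s ^ (2 * k)) volume a b :=
    fun a b => hcont.intervalIntegrable a b
  have h1 : ∫ s in a..b, (Z t / 2) ^ (2 * k) ≤ ∫ s in a..b, Z s ^ (2 * k) := by
    apply intervalIntegral.integral_mono_on hb3 intervalIntegrable_const (hint a b)
    intro s hs
    exact Real.rpow_le_rpow (by linarith) (hab s hs) (by linarith)
  have h2' : ∫ s in a..b, Z s ^ (2 * k) ≤ ∫ s in (0:ℝ)..T', Z s ^ (2 * k) := by
    apply intervalIntegral.integral_mono_interval ha0 hb3 hb4 _ (hint 0 T')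
    exact Eventually.of_forall fun s => Real.rpow_nonneg (Z_nonneg s) _
  rw [intervalIntegral.integral_const, smul_eq_mul] at h1
  have h3 : b - a = c / L := by rw [hb]; ring
  rw [h3] at h1
  have h4 : c / L * (Z t / 2) ^ (2 * k) ≤ T' * Real.log T' ^ (k ^ 2) := (h1.trans h2').trans hg
  -- logarithms
  have hT'0 : 0 < T' := by linarith
  have hlT' : Real.log T' ≤ L + Real.log 2 := by
    have h5 : Real.log T' ≤ Real.log (2 * T) := Real.log_le_log hT'0 hT2
    rw [Real.log_mul (by norm_num) (by linarith)] at h5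
    linarith
  have hlT'0 : L ≤ Real.log T' := Real.log_le_log (by linarith) (by linarith)
  have hlT'1 : 0 < Real.log T' := by linarith
  have hln2 : Real.log 2 < 0.6931471808 := Real.log_two_lt_d9
  have hln20 : 0 < Real.log 2 := Real.log_pos (by norm_num)
  have hllT' : Real.log (Real.log T') ≤ l + Real.log 2 / L := by
    have h5 : Real.log (Real.log T') ≤ Real.log (L + Real.log 2) := Real.log_le_log hlT'1 hlT'
    have h6 : L + Real.log 2 = L * (1 + Real.log 2 / L) := by field_simp
    rw [h6, Real.log_mul hL0.ne' (by positivity)] at h5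
    have h7 : Real.log (1 + Real.log 2 / L) ≤ Real.log 2 / L := by
      have := Real.log_le_sub_one_of_pos (show 0 < 1 + Real.log 2 / L by positivity)
      linarith
    linarith
  have hZ2 : 0 < Z t / 2 := by linarith
  have h5 : Real.log c - l + 2 * k * Real.log (Z t / 2) ≤
      Real.log T' + k ^ 2 * Real.log (Real.log T') := by
    have h6 := Real.log_le_log (by positivity) h4
    rw [Real.log_mul hcL.ne' (by positivity), Real.log_div hc0.ne' hL0.ne',
      Real.log_rpow hZ2, Real.log_mul hT'0.ne' (by positivity), Real.log_rpow hlT'1] at h6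
    exact h6
  have h6 : k ^ 2 * Real.log (Real.log T') ≤ k ^ 2 * l + k * Real.log 2 := by
    have h7 : k ^ 2 * (Real.log 2 / L) ≤ k * Real.log 2 := by
      rw [mul_div_assoc', div_le_iff₀ hL0]
      have h8 := mul_le_mul_of_nonneg_left hk2 (mul_nonneg hk0.le hln20.le)
      linarith
    have h8 := mul_le_mul_of_nonneg_left hllT' (sq_nonneg k)
    linarith
  have h7 : 2 * k * Real.log (Z t / 2) ≤ (L + k ^ 2 * l) + (l + e + Real.log 2 + k * Real.log 2) := by
    linarith
  have h8 : Real.log (Z t / 2) ≤ (L + k ^ 2 * l) / (2 * k) + (l + e + 2 * Real.log 2) := by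
    rw [← sub_le_iff_le_add, le_div_iff₀ (by positivity)]
    have hA : 0 ≤ (k - 1) * (l + e + Real.log 2) := by
      apply mul_nonneg <;> linarith
    have hB : 0 ≤ k * (l + e + Real.log 2) := by
      apply mul_nonneg <;> linarith
    have hC : 0 ≤ k * Real.log 2 := by positivity
    linarith
  have h9 : Real.log (Z t) = Real.log (Z t / 2) + Real.log 2 := by
    rw [← Real.log_mul hZ2.ne' (by norm_num)]
    congr 1
    ring
  have h10 : Real.log (Z t) ≤ (L + k ^ 2 * l) / (2 * k) + (5 + D + e) * l := by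
    have h11 : e ≤ e * l := le_mul_of_one_le_right he0 (by linarith)
    have h12 : 0 ≤ D * l := by apply mul_nonneg <;> linarith
    linarith
  calc Z t = Real.exp (Real.log (Z t)) := (Real.exp_log (by linarith)).symm
    _ ≤ _ := Real.exp_le_exp.2 h10

end Pool.Agent.W5h24.SD
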