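import Pool.Agent.W5h24.SD.Defs

/-! (C) one good pair bounds the zeta function -/

set_option autoImplicit false

open Complex MeasureTheory Set Filter Topology
open Pool.Agent.Results.MP_3d0d30_nt.ReductionsAndLargeValues

namespace Pool.Agent.W5h24.SD

lemma mass_of_interval {k T' V a b : ℝ} (hk : 1 ≤ k) (hV : 0 ≤ V) (ha : 0 ≤ a) (hab : a ≤ b)
    (hb : b ≤ T') (h : ∀ s ∈ Icc a b, V ≤ Z s) : (b - a) * V ^ (2 * k) ≤ M k T' := by
  have hcont : Continuous fun s : ℝ => Z s ^ (2 * k) :=
    Z_cont.rpow_const fun x => Or.inr (by linarith)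
  have hint : ∀ a b : ℝ, IntervalIntegrable (fun s : ℝ => Z s ^ (2 * k)) volume a b :=
    fun a b => hcont.intervalIntegrable a b
  have h1 : ∫ s in a..b, V ^ (2 * k) ≤ ∫ s in a..b, Z s ^ (2 * k) := by
    apply intervalIntegral.integral_mono_on hab intervalIntegrable_const (hint a b)
    intro s hs
    exact Real.rpow_le_rpow hV (h s hs) (by linarith)
  have h2 : ∫ s in a..b, Z s ^ (2 * k) ≤ ∫ s in (0:ℝ)..T', Z s ^ (2 * k) := by
    apply intervalIntegral.integral_mono_interval ha hab hb _ (hint 0 T')
    exact Eventually.of_forall fun s => Real.rpow_nonneg (Z_nonneg s) _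
  rw [intervalIntegral.integral_const, smul_eq_mul] at h1
  exact h1.trans h2

/-- **(C)** -/
theorem sup_of_pers1 : S_PERS → S_SUP := by
  rintro ⟨c, T₁, hc0, hc1, hT₁, hpers⟩
  obtain ⟨C₀, hC₀, hz₀⟩ := Pool.Agent.H448R2.GC.zeta_growth_mid
  obtain ⟨T₂, hT₂⟩ := eventually_atTop.1 (Real.tendsto_log_atTop.eventually_ge_atTop (3 * C₀))
  have hlc : 0 ≤ Real.log (1 / c) := Real.log_nonneg (by rw [le_div_iff₀ hc0]; linarith)
  refine ⟨5 + Real.log (1 / c), max T₁ T₂, by linarith, hT₁.trans (le_max_left _ _), ?_⟩
  intro T hT T' hT1 hT2 k hk hkL hg t ht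
  have g1 : T₁ ≤ T := (le_max_left _ _).trans hT
  have g2 : T₂ ≤ T := (le_max_right _ _).trans hT
  have g3 : 1000 ≤ T := hT₁.trans g1
  have hL := log_ge g3
  have hl := loglog_ge g3
  have hLC := hT₂ T g2
  have hT0 : 0 < T := by linarith
  set L := Real.log T with hLdef
  set l := Real.log L with hldef
  have hL0 : 0 < L := by linarith
  have hl0 : 0 < l := by linarith
  have hk0 : 0 < k := by linarith
  have hE0 : 0 ≤ (L + k ^ 2 * l) / (2 * k) := by positivity
  set c' := Real.log (1 / c) with hc'
  rcases le_or_gt (Z t) 1 with h1 | h1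
  · exact h1.trans (Real.one_le_exp (by positivity))
  rcases lt_or_ge t (2 * L ^ 4) with h2 | h2
  · have h5 := hz₀ (1 / 2 + t * I) (by simp; norm_num) (by simp; norm_num)
    have e : (1 / 2 + (t:ℂ) * I).im = t := by simp
    rw [e, abs_of_nonneg ht.1] at h5
    have hL41 : 1 ≤ L ^ 4 := one_le_pow₀ (by linarith)
    calc Z t ≤ C₀ * (1 + t) := h5
      _ ≤ C₀ * (3 * L ^ 4) := by
        gcongr
        linarith
      _ = 3 * C₀ * L ^ 4 := by ring
      _ ≤ L * L ^ 4 := by gcongr
      _ = Real.exp (5 * l) := by
        rw [show (5:ℝ) * l = ((5:ℕ):ℝ) * l by norm_num, Real.exp_nat_mul, hldef, Real.exp_log hL0]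
        ring
      _ ≤ _ := by
        apply Real.exp_le_exp.2
        nlinarith
  · obtain ⟨a, b, ha, hb, hb2, hmem⟩ := hpers T g1 t h2 ht.2 h1.le
    have hL40 : 0 < L ^ 4 := by positivity
    have hcL : 0 < c / L := by positivity
    have h3 := mass_of_interval (k := k) (T' := T') (V := Z t / 2) (a := a) (b := b) hk
      (by linarith) (by linarith) (by linarith) (by linarith [ht.2]) hmem
    have h4 : M k T' ≤ T' * Real.log T' ^ (k ^ 2) := hg
    have h5 : c / L * (Z t / 2) ^ (2 * k) ≤ T' * Real.log T' ^ (k ^ 2) := by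
      have e : b - a = c / L := by linarith
      rw [e] at h3
      exact h3.trans h4
    have hT'0 : 0 < T' := by linarith
    have hT'1 : 0 < Real.log T' := Real.log_pos (by linarith)
    have hV0 : 0 < Z t / 2 := by linarith
    have h6 := Real.log_le_log (by positivity) h5
    rw [Real.log_mul (by positivity) (by positivity), Real.log_div hc0.ne' hL0.ne',
      Real.log_rpow hV0, Real.log_mul (by positivity) (by positivity), Real.log_rpow hT'1,
      Real.log_div (by linarith) (by norm_num)] at h6
    have h7 : Real.log T' ≤ L + Real.log 2 := by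
      calc Real.log T' ≤ Real.log (2 * T) := Real.log_le_log hT'0 hT2
        _ = L + Real.log 2 := by
          rw [Real.log_mul (by norm_num) hT0.ne']
          ring
    have hlog2 : 0 < Real.log 2 := Real.log_pos (by norm_num)
    have h8 : Real.log (Real.log T') ≤ l + Real.log 2 / L := by
      calc Real.log (Real.log T') ≤ Real.log (L * (1 + Real.log 2 / L)) := by
            apply Real.log_le_log hT'1
            refine h7.trans (le_of_eq ?_)
            field_simp
        _ = l + Real.log (1 + Real.log 2 / L) := by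
            rw [Real.log_mul hL0.ne' (by positivity)]
        _ ≤ l + Real.log 2 / L := by
            have := Real.log_le_sub_one_of_pos (show 0 < 1 + Real.log 2 / L by positivity)
            linarith
    have h9 : k ^ 2 * (Real.log 2 / L) ≤ k * Real.log 2 := by
      rw [← mul_div_assoc, div_le_iff₀ hL0]
      nlinarith [mul_pos hk0 hlog2]
    have h10 : k ^ 2 * Real.log (Real.log T') ≤ k ^ 2 * (l + Real.log 2 / L) := by gcongr
    have hc2 : Real.log c = -c' := by
      rw [hc', one_div, Real.log_inv]
      ring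
    rw [hc2] at h6
    have h11 : 2 * k * Real.log (Z t) ≤ L + k ^ 2 * l + (2 * k * Real.log 2 + Real.log 2 +
        k * Real.log 2 + l + c') := by
      nlinarith
    have hlog2b := Real.log_two_lt_d9
    have h12 : Real.log (Z t) ≤ (L + k ^ 2 * l) / (2 * k) + (5 + c') * l := by
      rw [div_add' _ _ _ (by positivity), le_div_iff₀ (by positivity)]
      have h13 : 2 * k * Real.log 2 + Real.log 2 + k * Real.log 2 + l + c' ≤
          (5 + c') * l * (2 * k) := by
        have h14 : 2 * k * Real.log 2 + Real.log 2 + k * Real.log 2 ≤ 4 * k := by nlinarith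
        have h15 : 4 * k ≤ 4 * l * (2 * k) := by nlinarith
        have h16 : l ≤ l * (2 * k) := by nlinarith
        have h17 : c' ≤ c' * l * (2 * k) := by
          have h18 : c' ≤ c' * l := by nlinarith
          have h19 : 0 ≤ c' * l := by positivity
          nlinarith
        nlinarith
      linarith
    calc Z t = Real.exp (Real.log (Z t)) := (Real.exp_log (by linarith)).symm
      _ ≤ _ := Real.exp_le_exp.2 h12

end Pool.Agent.W5h24.SD
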