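import Pool.Agent.W5h24.SD.Defs

/-!
MP_3d0d30_nt, task (D1): the duality `k ↔ log T / (k log log T)` from the bound `S_SUP`.
-/

set_option autoImplicit false

open Complex MeasureTheory Set Filter Topology
open Pool.Agent.Results.MP_3d0d30_nt.ReductionsAndLargeValues
open Pool.Agent.W5h69.ZT (tend_ratio good_of_sup sup_of_exp rpow_le_log)

namespace Pool.Agent.W5h24.SD

/-- `S_MONO` with `1 ≤ k` -/
def S_MONO1 : Prop := ∀ ε : ℝ, 0 < ε → ∃ T₀ : ℝ, ∀ T : ℝ, T₀ ≤ T → ∀ T' : ℝ,
  T + Real.log T ^ 4 ≤ T' → T' ≤ 2 * T → ∀ k : ℝ, 1 ≤ k →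
  (1 + ε) * Real.log T ≤ k ^ 2 * Real.log (Real.log T) → Good k T → Good k T' →
  ∀ k' : ℝ, k ≤ k' → Good k' T


/-- numerical part of the duality -/
lemma dual_num {L l L' l' C k k' d v : ℝ} (hL : 1 ≤ L) (hl : 1 ≤ l) (hC : 1 ≤ C) (hk : 1 ≤ k)
    (hkL : k ≤ L) (hd : 0 < d) (hd1 : d ≤ 1) (h1 : d * k' ≤ k' - k) (h2 : d * (k' * l) ≤ k' * l - L / k)
    (h3 : 2 * C + 2 ≤ d ^ 2 * k') (hL' : L' ≤ L + Real.log 2) (hl' : l' ≤ l + Real.log 2 / L)
    (hv : v = (L + k ^ 2 * l) / (2 * k) + C * l) :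
    2 * (k' - k) * v + (L' + k ^ 2 * l') ≤ L + k' ^ 2 * l := by
  have hk0 : 0 < k := by linarith
  have hL0 : 0 < L := by linarith
  have hk' : 1 ≤ k' := by nlinarith [mul_pos hd hd]
  have hkk : 0 ≤ k' - k := le_trans (by positivity) h1
  have hlog : Real.log 2 ≤ 1 := by
    have := Real.log_two_lt_d9
    linarith
  have hlog0 : 0 ≤ Real.log 2 := Real.log_nonneg (by norm_num)
  have e1 : 2 * (k' - k) * v = (k' - k) * (L / k) + (k' - k) * (k * l) + 2 * C * ((k' - k) * l) := by
    rw [hv]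
    field_simp
  have e2 : k * (L / k) = L := by field_simp
  have h4 : k ^ 2 * l' ≤ k ^ 2 * l + k := by
    calc k ^ 2 * l' ≤ k ^ 2 * (l + Real.log 2 / L) := by gcongr
      _ = k ^ 2 * l + k * (k * Real.log 2 / L) := by ring
      _ ≤ k ^ 2 * l + k * 1 := by
        gcongr
        rw [div_le_one hL0]
        nlinarith
      _ = _ := by ring
  have h5 : 0 ≤ k' * l := by positivity
  have h6 : d ^ 2 * k' * (k' * l) ≤ (k' - k) * (k' * l - L / k) := by
    calc d ^ 2 * k' * (k' * l) = (d * k') * (d * (k' * l)) := by ring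
      _ ≤ (k' - k) * (k' * l - L / k) := by
        apply mul_le_mul h1 h2 (by positivity) hkk
  have h7 : (2 * C + 2) * (k' * l) ≤ d ^ 2 * k' * (k' * l) := by gcongr
  have h8 : (k' - k) * l ≤ k' * l := by nlinarith
  have h9 : 2 * C * ((k' - k) * l) ≤ 2 * C * (k' * l) := by gcongr
  have h10 : 1 + k ≤ 2 * (k' * l) := by nlinarith
  nlinarith

lemma mono_num {L l C k k' d v : ℝ} (hl : 0 ≤ l) (hk : 1 ≤ k) (hkk : k ≤ k')
    (h2 : d * (k * l) ≤ k * l - L / k) (h3 : 2 * C ≤ d * k)
    (hv : v = (L + k ^ 2 * l) / (2 * k) + C * l) :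
    2 * (k' - k) * v + (L + k ^ 2 * l) ≤ L + k' ^ 2 * l := by
  have hk0 : 0 < k := by linarith
  have e1 : 2 * (k' - k) * v = (k' - k) * (L / k + k * l + 2 * (C * l)) := by
    rw [hv]
    field_simp
  have h4 : 2 * (C * l) ≤ k * l - L / k := by
    calc 2 * (C * l) = 2 * C * l := by ring
      _ ≤ d * k * l := by gcongr
      _ = d * (k * l) := by ring
      _ ≤ _ := h2
  have h5 : L / k + k * l + 2 * (C * l) ≤ (k' + k) * l := by nlinarith
  have h6 : (k' - k) * (L / k + k * l + 2 * (C * l)) ≤ (k' - k) * ((k' + k) * l) :=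
    mul_le_mul_of_nonneg_left h5 (by linarith)
  nlinarith

lemma M_le_mul {T V k k' : ℝ} (hT : 0 ≤ T) (hk : 0 ≤ k) (hkk : k ≤ k')
    (h : ∀ t ∈ Icc (0:ℝ) T, Z t ≤ V) : M k' T ≤ V ^ (2 * (k' - k)) * M k T := by
  unfold M
  rw [← intervalIntegral.integral_const_mul]
  have hc : ∀ j : ℝ, 0 ≤ j → Continuous fun s : ℝ => Z s ^ (2 * j) := fun j hj =>
    Z_cont.rpow_const fun x => Or.inr (by linarith)
  apply intervalIntegral.integral_mono_on hT ((hc k' (hk.trans hkk)).intervalIntegrable _ _)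
    (((hc k hk).const_mul _).intervalIntegrable _ _)
  intro t ht
  have e : 2 * k' = 2 * (k' - k) + 2 * k := by ring
  rw [e, Real.rpow_add_of_nonneg (Z_nonneg t) (by linarith) (by linarith)]
  exact mul_le_mul_of_nonneg_right (Real.rpow_le_rpow (Z_nonneg t) (h t ht) (by linarith))
    (Real.rpow_nonneg (Z_nonneg t) _)

lemma M_mono {T T' k : ℝ} (hT : 0 ≤ T) (hTT : T ≤ T') (hk : 0 ≤ k) : M k T ≤ M k T' := by
  have hcont : Continuous fun s : ℝ => Z s ^ (2 * k) :=
    Z_cont.rpow_const fun x => Or.inr (by linarith)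
  apply intervalIntegral.integral_mono_interval le_rfl hT hTT _ (hcont.intervalIntegrable _ _)
  exact Eventually.of_forall fun s => Real.rpow_nonneg (Z_nonneg s) _

/-- the very large orders -/
lemma large_orders : ∃ T₀ : ℝ, 1000 ≤ T₀ ∧ ∀ T : ℝ, T₀ ≤ T → ∀ k : ℝ, Real.log T ≤ k →
    Good k T := by
  obtain ⟨t₀, -, hw⟩ := weyl (1 / 12) (by norm_num)
  obtain ⟨T₀, hT₀, h⟩ := sup_of_exp (a := 1 / 6 + 1 / 12) (b := 1 / 2) (by norm_num) (by norm_num)
    ⟨t₀, hw⟩
  refine ⟨T₀, hT₀, fun T hT k hk => ?_⟩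
  have h3 : 1000 ≤ T := hT₀.trans hT
  have hl := log_ge h3
  have hll := loglog_ge h3
  refine good_of_sup h3 (by linarith) fun t ht => (h T hT t ht).trans ?_
  apply rpow_le_log h3
  nlinarith

lemma log_T' {T T' : ℝ} (hT : 1000 ≤ T) (h1 : T ≤ T') (h2 : T' ≤ 2 * T) :
    Real.log T' ≤ Real.log T + Real.log 2 ∧
    Real.log (Real.log T') ≤ Real.log (Real.log T) + Real.log 2 / Real.log T := by
  have hl := log_ge hT
  have h3 : Real.log T' ≤ Real.log T + Real.log 2 := by
    calc Real.log T' ≤ Real.log (2 * T) := Real.log_le_log (by linarith) h2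
      _ = _ := by rw [Real.log_mul (by norm_num) (by linarith)]; ring
  refine ⟨h3, ?_⟩
  have hlog0 : 0 ≤ Real.log 2 := Real.log_nonneg (by norm_num)
  have h4 : Real.log T ≤ Real.log T' := Real.log_le_log (by linarith) h1
  calc Real.log (Real.log T') ≤ Real.log (Real.log T * (1 + Real.log 2 / Real.log T)) := by
        apply Real.log_le_log (by linarith)
        rw [mul_add, mul_one, mul_div_cancel₀ _ (by linarith)]
        exact h3
    _ = Real.log (Real.log T) + Real.log (1 + Real.log 2 / Real.log T) := by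
        rw [Real.log_mul (by linarith) (by positivity)]
    _ ≤ _ := by
        have h5 : Real.log (1 + Real.log 2 / Real.log T) ≤ Real.log 2 / Real.log T := by
          have := Real.log_le_sub_one_of_pos (show 0 < 1 + Real.log 2 / Real.log T by positivity)
          linarith
        linarith

lemma exp_form {T k : ℝ} (hT : 1000 ≤ T) : T * Real.log T ^ (k ^ 2) =
    Real.exp (Real.log T + k ^ 2 * Real.log (Real.log T)) := by
  have hl := log_ge hT
  rw [Real.exp_add, Real.exp_log (by linarith), Real.rpow_def_of_pos (by linarith), mul_comm (k ^ 2)]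

lemma sqrt_large {X : ℝ} : ∃ T₀ : ℝ, ∀ T : ℝ, T₀ ≤ T →
    X ≤ √(Real.log T / Real.log (Real.log T)) := by
  have h := (Real.tendsto_sqrt_atTop.comp tend_ratio).eventually_ge_atTop X
  obtain ⟨T₀, hT₀⟩ := eventually_atTop.1 h
  exact ⟨T₀, fun T hT => hT₀ T hT⟩

theorem dual_of_sup : S_SUP → S_DUAL := by
  rintro ⟨C, T₁, hC, hT₁, hsup⟩ ε hε
  obtain ⟨T₂, hT₂, hlarge⟩ := large_orders
  set d : ℝ := ε / (1 + ε) with hd
  have hd0 : 0 < d := by positivity
  have hd1 : d ≤ 1 := by rw [hd, div_le_one (by positivity)]; linarith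
  obtain ⟨T₃, hT₃⟩ := sqrt_large (X := (2 * C + 2) / d ^ 2)
  refine ⟨max (max T₁ T₂) T₃, fun T hT T' hTT hTT2 k hk hg k' hkk hkl => ?_⟩
  have h1 : T₁ ≤ T := (le_max_left _ _).trans ((le_max_left _ _).trans hT)
  have h2 : T₂ ≤ T := (le_max_right _ _).trans ((le_max_left _ _).trans hT)
  have h3 : T₃ ≤ T := (le_max_right _ _).trans hT
  have hT0 : 1000 ≤ T := hT₁.trans h1
  have hL := log_ge hT0
  have hl := loglog_ge hT0
  have hk'k : k ≤ k' := by nlinarith
  rcases le_total (Real.log T) k with hbig | hsmall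
  · exact hlarge T h2 k' (hbig.trans hk'k)
  have hTle : T ≤ T' := by
    have : 0 ≤ Real.log T ^ 4 := by positivity
    linarith
  have hT' : 1000 ≤ T' := hT0.trans hTle
  have hs := hsup T h1 T' hTT hTT2 k hk hsmall hg
  obtain ⟨hl1, hl2⟩ := log_T' hT0 hTle hTT2
  set L := Real.log T with hLd
  set l := Real.log L with hld
  set v : ℝ := (L + k ^ 2 * l) / (2 * k) + C * l with hv
  clear_value v
  have hk0 : 0 < k := by linarith
  have hk'0 : 0 < k' := by linarith
  -- the numerical conditions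
  have c1 : d * k' ≤ k' - k := by
    have : k ≤ k' / (1 + ε) := by rw [le_div_iff₀ (by positivity)]; linarith
    have e : d * k' = k' - k' / (1 + ε) := by
      rw [hd]
      field_simp
      ring
    linarith
  have c2 : d * (k' * l) ≤ k' * l - L / k := by
    have : L / k ≤ k' * l / (1 + ε) := by
      rw [div_le_div_iff₀ hk0 (by positivity)]
      linarith
    have e : d * (k' * l) = k' * l - k' * l / (1 + ε) := by
      rw [hd]
      field_simp
      ring
    linarith
  have c3 : 2 * C + 2 ≤ d ^ 2 * k' := by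
    have h4 := hT₃ T h3
    have h5 : √(L / l) ≤ k' := by
      rw [Real.sqrt_le_left hk'0.le, div_le_iff₀ (by linarith)]
      have h6 : k * k' * l ≤ k' * k' * l := by gcongr
      nlinarith
    have h6 : (2 * C + 2) / d ^ 2 ≤ k' := h4.trans h5
    rw [div_le_iff₀ (by positivity)] at h6
    linarith
  have key := dual_num (l' := Real.log (Real.log T')) (L' := Real.log T') (by linarith)
    (by linarith) hC hk hsmall hd0 hd1 c1 c2 c3 hl1 hl2 hv
  unfold Good
  calc M k' T ≤ Real.exp v ^ (2 * (k' - k)) * M k T :=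
        M_le_mul (by linarith) hk0.le hk'k hs
    _ ≤ Real.exp v ^ (2 * (k' - k)) * M k T' := by
        gcongr
        exact M_mono (by linarith) hTle hk0.le
    _ ≤ Real.exp v ^ (2 * (k' - k)) * (T' * Real.log T' ^ (k ^ 2)) := by
        gcongr
        exact hg
    _ = Real.exp (2 * (k' - k) * v + (Real.log T' + k ^ 2 * Real.log (Real.log T'))) := by
        rw [exp_form hT', ← Real.exp_mul, ← Real.exp_add]
        congr 1
        ring
    _ ≤ Real.exp (L + k' ^ 2 * l) := Real.exp_le_exp.2 key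
    _ = T * Real.log T ^ (k' ^ 2) := (exp_form hT0).symm

theorem mono_of_sup : S_SUP → S_MONO1 := by
  rintro ⟨C, T₁, hC, hT₁, hsup⟩ ε hε
  obtain ⟨T₂, hT₂, hlarge⟩ := large_orders
  set d : ℝ := ε / (1 + ε) with hd
  have hd0 : 0 < d := by positivity
  obtain ⟨T₃, hT₃⟩ := sqrt_large (X := 2 * C / d)
  refine ⟨max (max T₁ T₂) T₃, fun T hT T' hTT hTT2 k hk hkl hg0 hg k' hk'k => ?_⟩
  have h1 : T₁ ≤ T := (le_max_left _ _).trans ((le_max_left _ _).trans hT)
  have h2 : T₂ ≤ T := (le_max_right _ _).trans ((le_max_left _ _).trans hT)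
  have h3 : T₃ ≤ T := (le_max_right _ _).trans hT
  have hT0 : 1000 ≤ T := hT₁.trans h1
  have hL := log_ge hT0
  have hl := loglog_ge hT0
  rcases le_total (Real.log T) k with hbig | hsmall
  · exact hlarge T h2 k' (hbig.trans hk'k)
  have hs := hsup T h1 T' hTT hTT2 k hk hsmall hg
  set L := Real.log T with hLd
  set l := Real.log L with hld
  set v : ℝ := (L + k ^ 2 * l) / (2 * k) + C * l with hv
  clear_value v
  have hk0 : 0 < k := by linarith
  have c2 : d * (k * l) ≤ k * l - L / k := by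
    have : L / k ≤ k * l / (1 + ε) := by
      rw [div_le_div_iff₀ hk0 (by positivity)]
      linarith
    have e : d * (k * l) = k * l - k * l / (1 + ε) := by
      rw [hd]
      field_simp
      ring
    linarith
  have c3 : 2 * C ≤ d * k := by
    have h4 := hT₃ T h3
    have h5 : √(L / l) ≤ k := by
      rw [Real.sqrt_le_left hk0.le, div_le_iff₀ (by linarith)]
      nlinarith
    have h6 : 2 * C / d ≤ k := h4.trans h5
    rw [div_le_iff₀ hd0] at h6
    linarith
  have key := mono_num (L := L) (l := l) (C := C) (v := v) (by linarith) hk hk'k c2 c3 hv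
  unfold Good
  calc M k' T ≤ Real.exp v ^ (2 * (k' - k)) * M k T :=
        M_le_mul (by linarith) hk0.le hk'k hs
    _ ≤ Real.exp v ^ (2 * (k' - k)) * (T * Real.log T ^ (k ^ 2)) := by
        gcongr
        exact hg0
    _ = Real.exp (2 * (k' - k) * v + (L + k ^ 2 * l)) := by
        rw [exp_form hT0, ← Real.exp_mul, ← Real.exp_add, ← hLd, ← hld]
        congr 1
        ring
    _ ≤ Real.exp (L + k' ^ 2 * l) := Real.exp_le_exp.2 key
    _ = T * Real.log T ^ (k' ^ 2) := (exp_form hT0).symm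

end Pool.Agent.W5h24.SD
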