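import Pool.Agent.W5h24.SD.Defs

/-!
(D2) the orders `κ √(log T / log log T)`
-/

set_option autoImplicit false

open Complex MeasureTheory Set Filter Topology
open Pool.Agent.Results.MP_3d0d30_nt.ReductionsAndLargeValues
open Pool.Agent.W5h69.ZT (tend_ratio)

namespace Pool.Agent.W5h24.SD

lemma ord_tendsto {κ : ℝ} (hκ : 0 < κ) : Tendsto (ord κ) atTop atTop :=
  (Real.tendsto_sqrt_atTop.comp tend_ratio).const_mul_atTop hκ

/-- the ratios of the logarithms of `T` and of `2 T` -/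
lemma sqrt_compare {δ : ℝ} (hδ : 0 < δ) : ∃ T₀ : ℝ, ∀ T : ℝ, T₀ ≤ T →
    0 < Real.log T ∧ 0 < Real.log (Real.log T) ∧
    √(Real.log (2 * T) / Real.log (Real.log (2 * T))) ≤
      (1 + δ) * √(Real.log T / Real.log (Real.log T)) ∧
    √(Real.log T / Real.log (Real.log T)) ≤
      (1 + δ) * √(Real.log (2 * T) / Real.log (Real.log (2 * T))) := by
  have h1 : ∀ᶠ T : ℝ in atTop, Real.exp 1 ≤ Real.log T ∧ Real.log 2 / δ ≤ Real.log T ∧ 1 ≤ T :=
    (Real.tendsto_log_atTop.eventually_ge_atTop _).and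
      ((Real.tendsto_log_atTop.eventually_ge_atTop _).and (eventually_ge_atTop 1))
  obtain ⟨T₀, hT₀⟩ := eventually_atTop.1 h1
  refine ⟨T₀, fun T hT => ?_⟩
  obtain ⟨ha, hb, hc⟩ := hT₀ T hT
  have hL0 : 0 < Real.log T := lt_of_lt_of_le (Real.exp_pos 1) ha
  have hl1 : 1 ≤ Real.log (Real.log T) := by
    rw [← Real.log_exp 1]
    exact Real.log_le_log (Real.exp_pos 1) ha
  have h2 : 0 < Real.log 2 := Real.log_pos (by norm_num)
  have hL' : Real.log (2 * T) = Real.log 2 + Real.log T :=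
    Real.log_mul (by norm_num) (by linarith)
  have h3 : Real.log 2 ≤ δ * Real.log T := by
    rw [div_le_iff₀ hδ] at hb
    linarith
  have h4 : Real.log T ≤ Real.log (2 * T) := by linarith
  have h5 : Real.log (2 * T) ≤ (1 + δ) * Real.log T := by linarith
  have hL'0 : 0 < Real.log (2 * T) := by linarith
  have h6 : Real.log (Real.log T) ≤ Real.log (Real.log (2 * T)) := Real.log_le_log hL0 h4
  have h7 : Real.log (Real.log (2 * T)) ≤ (1 + δ) * Real.log (Real.log T) := by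
    have h8 : Real.log (Real.log (2 * T)) ≤ Real.log ((1 + δ) * Real.log T) :=
      Real.log_le_log hL'0 h5
    rw [Real.log_mul (by linarith) hL0.ne'] at h8
    have h9 : Real.log (1 + δ) ≤ δ := by
      have := Real.log_le_sub_one_of_pos (by linarith : 0 < 1 + δ)
      linarith
    nlinarith
  have hl0 : 0 < Real.log (Real.log T) := by linarith
  have hl'0 : 0 < Real.log (Real.log (2 * T)) := by linarith
  refine ⟨hL0, hl0, ?_, ?_⟩
  · have h8 : Real.log (2 * T) / Real.log (Real.log (2 * T)) ≤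
        (1 + δ) ^ 2 * (Real.log T / Real.log (Real.log T)) := by
      rw [← mul_div_assoc, div_le_div_iff₀ hl'0 hl0]
      have h9 : (1 + δ) * Real.log T ≤ (1 + δ) ^ 2 * Real.log T := by nlinarith
      calc Real.log (2 * T) * Real.log (Real.log T)
          ≤ ((1 + δ) ^ 2 * Real.log T) * Real.log (Real.log T) :=
            mul_le_mul_of_nonneg_right (h5.trans h9) hl0.le
        _ ≤ ((1 + δ) ^ 2 * Real.log T) * Real.log (Real.log (2 * T)) :=
            mul_le_mul_of_nonneg_left h6 (by positivity)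
    calc √(Real.log (2 * T) / Real.log (Real.log (2 * T)))
        ≤ √((1 + δ) ^ 2 * (Real.log T / Real.log (Real.log T))) := Real.sqrt_le_sqrt h8
      _ = (1 + δ) * √(Real.log T / Real.log (Real.log T)) := by
          rw [Real.sqrt_mul (by positivity), Real.sqrt_sq (by linarith)]
  · have h8 : Real.log T / Real.log (Real.log T) ≤
        (1 + δ) ^ 2 * (Real.log (2 * T) / Real.log (Real.log (2 * T))) := by
      rw [← mul_div_assoc, div_le_div_iff₀ hl0 hl'0]
      have h9 : (1 + δ) * Real.log (Real.log T) ≤ (1 + δ) ^ 2 * Real.log (Real.log T) := by nlinarith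
      calc Real.log T * Real.log (Real.log (2 * T))
          ≤ Real.log (2 * T) * ((1 + δ) ^ 2 * Real.log (Real.log T)) :=
            mul_le_mul h4 (h7.trans h9) hl'0.le hL'0.le
        _ = (1 + δ) ^ 2 * Real.log (2 * T) * Real.log (Real.log T) := by ring
    calc √(Real.log T / Real.log (Real.log T))
        ≤ √((1 + δ) ^ 2 * (Real.log (2 * T) / Real.log (Real.log (2 * T)))) := Real.sqrt_le_sqrt h8
      _ = (1 + δ) * √(Real.log (2 * T) / Real.log (Real.log (2 * T))) := by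
          rw [Real.sqrt_mul (by positivity), Real.sqrt_sq (by linarith)]

/-- the order `ord κ (2 T)` for `2 T` gives all orders from `ord κ' T` on for `T` -/
lemma core (h : S_DUAL) {κ κ' : ℝ} (hκ : 0 < κ) (h1 : κ < κ') (h2 : 1 < κ * κ') :
    ∃ T₀ : ℝ, ∀ T : ℝ, T₀ ≤ T → Good (ord κ (2 * T)) (2 * T) → ∀ k : ℝ, ord κ' T ≤ k →
      Good k T := by
  obtain ⟨δ, hδ, hd1, hd2⟩ : ∃ δ : ℝ, 0 < δ ∧ (1 + δ) ^ 2 * κ ≤ κ' ∧ (1 + δ) ^ 2 ≤ κ * κ' := by
    have hc : Tendsto (fun δ : ℝ => (1 + δ) ^ 2) (𝓝[>] 0) (𝓝 1) := by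
      have : Continuous fun δ : ℝ => (1 + δ) ^ 2 := by fun_prop
      have h3 := this.tendsto 0
      norm_num at h3
      exact h3.mono_left nhdsWithin_le_nhds
    have h3 : ∀ᶠ δ in 𝓝[>] (0:ℝ), (1 + δ) ^ 2 < κ' / κ :=
      hc.eventually_lt_const (by rwa [one_lt_div hκ])
    have h4 : ∀ᶠ δ in 𝓝[>] (0:ℝ), (1 + δ) ^ 2 < κ * κ' := hc.eventually_lt_const h2
    have h5 : ∀ᶠ δ in 𝓝[>] (0:ℝ), 0 < δ := self_mem_nhdsWithin
    obtain ⟨δ, hδ1, hδ2, hδ3⟩ := (h5.and (h3.and h4)).exists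
    refine ⟨δ, hδ1, ?_, hδ3.le⟩
    rw [lt_div_iff₀ hκ] at hδ2
    exact hδ2.le
  obtain ⟨T₁, hT₁⟩ := h δ hδ
  obtain ⟨T₂, hT₂⟩ := sqrt_compare hδ
  have hlog : ∀ᶠ T : ℝ in atTop, Real.log T ^ 4 ≤ T := by
    have h3 := (isLittleO_log_rpow_atTop (r := 1 / 4) (by norm_num)).bound
      (by norm_num : (0:ℝ) < 1)
    filter_upwards [h3, eventually_ge_atTop (1:ℝ)] with T hT hT1
    have h4 : 0 ≤ Real.log T := Real.log_nonneg hT1
    rw [Real.norm_of_nonneg h4, Real.norm_of_nonneg (Real.rpow_nonneg (by linarith) _), one_mul] at hT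
    calc Real.log T ^ 4 ≤ (T ^ (1 / 4 : ℝ)) ^ 4 := pow_le_pow_left₀ h4 hT 4
      _ = T := by
          rw [← Real.rpow_natCast, ← Real.rpow_mul (by linarith)]
          norm_num
  have hord : ∀ᶠ T : ℝ in atTop, 1 ≤ ord κ (2 * T) :=
    ((ord_tendsto hκ).comp (tendsto_id.const_mul_atTop (by norm_num : (0:ℝ) < 2))).eventually_ge_atTop 1
  obtain ⟨T₃, hT₃⟩ := eventually_atTop.1 (hlog.and hord)
  refine ⟨max T₁ (max T₂ T₃), fun T hT hg k hk => ?_⟩
  have ha := hT₁ T ((le_max_left _ _).trans hT)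
  obtain ⟨hL0, hl0, hb1, hb2⟩ := hT₂ T (((le_max_left _ _).trans (le_max_right _ _)).trans hT)
  obtain ⟨hc1, hc2⟩ := hT₃ T (((le_max_right _ _).trans (le_max_right _ _)).trans hT)
  have hκ' : 0 < κ' := hκ.trans h1
  set R := √(Real.log T / Real.log (Real.log T)) with hR
  set R' := √(Real.log (2 * T) / Real.log (Real.log (2 * T))) with hR'
  have hR0 : 0 ≤ R := Real.sqrt_nonneg _
  have hR'0 : 0 ≤ R' := Real.sqrt_nonneg _
  have hRsq : R * R * Real.log (Real.log T) = Real.log T := by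
    rw [hR, Real.mul_self_sqrt (by positivity)]
    field_simp
  refine ha (2 * T) (by linarith) le_rfl (ord κ (2 * T)) hc2 hg k ?_ ?_
  · refine le_trans ?_ hk
    unfold ord
    calc (1 + δ) * (κ * R') ≤ (1 + δ) * (κ * ((1 + δ) * R)) := by gcongr
      _ = (1 + δ) ^ 2 * κ * R := by ring
      _ ≤ κ' * R := mul_le_mul_of_nonneg_right hd1 hR0
  · have h5 : 0 ≤ ord κ (2 * T) := by linarith
    calc (1 + δ) * Real.log T = (1 + δ) * (R * R * Real.log (Real.log T)) := by rw [hRsq]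
      _ ≤ (1 + δ) * (((1 + δ) * R') * R * Real.log (Real.log T)) := by gcongr
      _ = (1 + δ) ^ 2 * (R' * R * Real.log (Real.log T)) := by ring
      _ ≤ κ * κ' * (R' * R * Real.log (Real.log T)) :=
          mul_le_mul_of_nonneg_right hd2 (by positivity)
      _ = (κ * R') * (κ' * R) * Real.log (Real.log T) := by ring
      _ ≤ ord κ (2 * T) * k * Real.log (Real.log T) := by
          apply mul_le_mul_of_nonneg_right _ hl0.le
          exact mul_le_mul le_rfl hk (by positivity) h5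

theorem range_of_dual (h : S_DUAL) : S_RANGE := by
  intro ε hε
  constructor
  · rintro ⟨T₀, hT₀⟩
    exact ⟨T₀, fun T hT k hk _ => hT₀ T hT k hk⟩
  · rintro ⟨T₀, hT₀⟩
    obtain ⟨T₁, hT₁⟩ := core h (κ := 1) (κ' := 1 + ε) one_pos (by linarith) (by linarith)
    have hord : ∀ᶠ T : ℝ in atTop, 2 ≤ ord 1 (2 * T) :=
      ((ord_tendsto one_pos).comp
        (tendsto_id.const_mul_atTop (by norm_num : (0:ℝ) < 2))).eventually_ge_atTop 2
    obtain ⟨T₂, hT₂⟩ := eventually_atTop.1 (hord.and (eventually_ge_atTop (0:ℝ)))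
    refine ⟨max T₀ (max T₁ T₂), fun T hT k hk => ?_⟩
    have ha : T₀ ≤ T := (le_max_left _ _).trans hT
    have hb : T₁ ≤ T := ((le_max_left _ _).trans (le_max_right _ _)).trans hT
    obtain ⟨hc, hc0⟩ := hT₂ T (((le_max_right _ _).trans (le_max_right _ _)).trans hT)
    rcases le_total k (ord (1 + ε) T) with h1 | h1
    · exact hT₀ T ha k hk h1
    · refine hT₁ T hb ?_ k h1
      refine hT₀ (2 * T) (by linarith) _ hc ?_
      unfold ord
      exact mul_le_mul_of_nonneg_right (by linarith) (Real.sqrt_nonneg _)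

theorem ord_of_dual (h : S_DUAL) : S_ORD := by
  rintro κ hκ ⟨T₀, hT₀⟩ κ' h1 h2
  obtain ⟨T₁, hT₁⟩ := core h hκ h1 (by rwa [div_lt_iff₀' hκ] at h2)
  refine ⟨max (max T₀ T₁) 0, fun T hT k hk => ?_⟩
  have ha : T₀ ≤ T := ((le_max_left _ _).trans (le_max_left _ _)).trans hT
  have hb : T₁ ≤ T := ((le_max_right _ _).trans (le_max_left _ _)).trans hT
  have hc : 0 ≤ T := (le_max_right _ _).trans hT
  exact hT₁ T hb (hT₀ (2 * T) (by linarith)) k hk

end Pool.Agent.W5h24.SD
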