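import Pool.Agent.W5h24.SD.Defs

/-!
MP_3d0d30_nt, task (D3): the size of the zeta function and the inequality of Q2.
-/

set_option autoImplicit false

open Complex MeasureTheory Set Filter Topology
open Pool.Agent.Results.MP_3d0d30_nt.ReductionsAndLargeValues

namespace Pool.Agent.W5h24.SD

lemma d3_tend_loglog : Tendsto (fun T : ℝ => Real.log (Real.log T)) atTop atTop :=
  Real.tendsto_log_atTop.comp Real.tendsto_log_atTop

lemma d3_log_pow : ∀ᶠ t : ℝ in atTop, Real.log t ^ 4 ≤ t := by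
  have h := (Real.isLittleO_pow_log_id_atTop (n := 4)).bound one_pos
  filter_upwards [h, eventually_ge_atTop 1] with t ht h1
  rw [one_mul, Real.norm_eq_abs, Real.norm_eq_abs, id, abs_of_nonneg (by linarith : (0:ℝ) ≤ t),
    abs_of_nonneg (by positivity)] at ht
  exact ht

/-- `√(L/l)` and `√(L l)` -/
lemma d3_sqrt {L l : ℝ} (hL : 0 < L) (hl : 0 < l) :
    √(L / l) = √(L * l) / l := by
  have h : L / l = L * l / l ^ 2 := by field_simp
  rw [h, Real.sqrt_div (by positivity), Real.sqrt_sq hl.le]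

lemma d3_alg {κ L l L' l' k s : ℝ} (hκ : 0 < κ) (hk : 0 < k) (hl' : 0 < l') (h1 : L ≤ L')
    (h2 : l ≤ l') (hs : s ^ 2 = L' * l') (hkl : k * l' = κ * s) :
    (L + k ^ 2 * l) / (2 * k) ≤ (κ + 1 / κ) / 2 * s := by
  have h3 : L' * κ = k * s := by
    have h4 : (L' * κ) * l' = (k * s) * l' := by
      calc (L' * κ) * l' = κ * (L' * l') := by ring
        _ = κ * s ^ 2 := by rw [hs]
        _ = (κ * s) * s := by ring
        _ = (k * l') * s := by rw [hkl]
        _ = _ := by ring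
    exact mul_right_cancel₀ hl'.ne' h4
  rw [div_le_iff₀ (by linarith)]
  have h5 : (κ + 1 / κ) / 2 * s * (2 * k) = κ * s * k + (k * s) / κ := by
    field_simp
  rw [h5, ← h3, mul_div_cancel_right₀ _ hκ.ne', ← hkl]
  have h6 : k ^ 2 * l ≤ k ^ 2 * l' := mul_le_mul_of_nonneg_left h2 (by positivity)
  linarith [h6, h1, (by ring : k * l' * k = k ^ 2 * l')]

lemma d3_ord {κ L L' l' : ℝ} (hκ : 0 < κ) (hL : 1 ≤ L) (h : L' ≤ 2 * L) (hl' : 1 ≤ l')
    (hL' : 0 ≤ L') (h4 : 2 * κ ^ 2 ≤ L) :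
    κ * √(L' / l') ≤ L := by
  have h1 : √(L' / l') ≤ √(2 * L) := by
    apply Real.sqrt_le_sqrt
    rw [div_le_iff₀ (by linarith)]
    nlinarith
  have h2 : κ * √(2 * L) ≤ L := by
    have h12 : (κ * √(2 * L)) ^ 2 ≤ L ^ 2 := by
      rw [mul_pow, Real.sq_sqrt (by linarith)]
      nlinarith
    exact (sq_le_sq₀ (by positivity) (by linarith)).1 h12
  calc κ * √(L' / l') ≤ κ * √(2 * L) := by gcongr
    _ ≤ L := h2

lemma d3_small {C l δ L : ℝ} (hC : 0 ≤ C) (hl : 0 < l) (hδ : 0 < δ) (hL : 0 < L)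
    (h1 : C ^ 2 / δ ^ 2 ≤ L / l) : C * l ≤ δ * √(L * l) := by
  have h12 : (C * l) ^ 2 ≤ (δ * √(L * l)) ^ 2 := by
    rw [mul_pow, mul_pow, Real.sq_sqrt (by positivity)]
    rw [div_le_div_iff₀ (by positivity) (by linarith)] at h1
    nlinarith
  exact (sq_le_sq₀ (by positivity) (by positivity)).1 h12

lemma d3_big {δ L l L' l' : ℝ} (hδ : 0 < δ) (hL : 0 ≤ L) (hl : 0 ≤ l) (hl' : 0 ≤ l')
    (a1 : L' ≤ (1 + δ) * L) (a3 : l' ≤ (1 + δ) * l) :
    √(L' * l') ≤ (1 + δ) * √(L * l) := by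
  rw [Real.sqrt_le_left (by positivity), mul_pow, Real.sq_sqrt (by positivity)]
  calc L' * l' ≤ ((1 + δ) * L) * ((1 + δ) * l) :=
        mul_le_mul a1 a3 hl' (by positivity)
    _ = _ := by ring

theorem size_of_sup : S_SUP → S_SIZE := by
  intro hS κ hκ hg c' hc'
  obtain ⟨C, T₀, hC, hT₀, hsup⟩ := hS
  obtain ⟨T₁, hT₁⟩ := hg
  set c : ℝ := (κ + 1 / κ) / 2 with hc
  have hc0 : 0 < c := by positivity
  set δ : ℝ := (c' - c) / (c + 1) with hδ
  have hδ0 : 0 < δ := div_pos (by linarith) (by linarith)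
  have hδ1 : c * (1 + δ) + δ = c' := by
    rw [hδ]
    field_simp
    ring
  have e1 := Pool.Agent.W5h69.ZT.tend_ratio.eventually_ge_atTop (C ^ 2 / δ ^ 2)
  have e2 := d3_tend_loglog.eventually_ge_atTop (Real.log 2 / δ)
  have e3 := Real.tendsto_log_atTop.eventually_ge_atTop (Real.log 2 / δ)
  have e4 := Real.tendsto_log_atTop.eventually_ge_atTop (2 * κ ^ 2)
  have e5 := (Pool.Agent.W5h69.ZT.tend_ratio.comp
    (tendsto_id.const_mul_atTop (show (0:ℝ) < 2 by norm_num))).eventually_ge_atTop (1 / κ ^ 2)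
  have e6 := Real.tendsto_log_atTop.eventually_ge_atTop 1
  have e7 := d3_tend_loglog.eventually_ge_atTop 1
  obtain ⟨t₀, ht₀⟩ := eventually_atTop.1 (e1.and (e2.and (e3.and (e4.and (e5.and (e6.and
    (e7.and (d3_log_pow.and ((eventually_ge_atTop T₀).and ((eventually_ge_atTop T₁).and
    (eventually_ge_atTop (1:ℝ))))))))))))
  refine ⟨t₀, fun t ht => ?_⟩
  obtain ⟨h1, h2, h3, h4, h5, h6, h7, h8, h9, h10, h11⟩ := ht₀ t ht
  simp only [Function.comp_apply, id] at h5
  have hlog2 : 0 < Real.log 2 := Real.log_pos (by norm_num)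
  have hLt : Real.log (2 * t) = Real.log 2 + Real.log t := Real.log_mul (by norm_num) (by linarith)
  have hg2 : Good (ord κ (2 * t)) (2 * t) := hT₁ _ (by linarith)
  set k : ℝ := ord κ (2 * t) with hk
  set L : ℝ := Real.log t with hL
  set l : ℝ := Real.log L with hl
  set L' : ℝ := Real.log (2 * t) with hL'
  set l' : ℝ := Real.log L' with hl'
  have hlog2' : Real.log 2 ≤ 1 := by
    have := Real.log_two_lt_d9
    linarith
  have a1 : L' ≤ (1 + δ) * L := by
    rw [hLt]
    rw [div_le_iff₀ hδ0] at h3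
    linarith
  have a2 : L' ≤ 2 * L := by
    rw [hLt]
    linarith
  have a3 : l' ≤ (1 + δ) * l := by
    have : l' ≤ Real.log (2 * L) := Real.log_le_log (by linarith) a2
    rw [Real.log_mul (by norm_num) (by linarith)] at this
    rw [div_le_iff₀ hδ0] at h2
    linarith
  have a4 : L ≤ L' := by linarith
  have a5 : l ≤ l' := Real.log_le_log (by linarith) a4
  set s : ℝ := √(L' * l') with hs
  have hs2 : s ^ 2 = L' * l' := Real.sq_sqrt (mul_nonneg (by linarith) (by linarith))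
  have hs0 : 0 < s := Real.sqrt_pos.2 (mul_pos (by linarith) (by linarith))
  have hkl : k * l' = κ * s := by
    have : k = κ * (s / l') := by
      rw [hk, ord, d3_sqrt (by linarith : (0:ℝ) < L') (by linarith : (0:ℝ) < l')]
    rw [this]
    have : l' ≠ 0 := by linarith
    field_simp
  have hk0 : 0 < k := by
    rw [hk, ord]
    exact mul_pos hκ (Real.sqrt_pos.2 (div_pos (by linarith) (by linarith)))
  have hk1 : 1 ≤ k := by
    have h : 1 / κ ≤ √(L' / l') := by
      rw [Real.le_sqrt (by positivity) (div_nonneg (by linarith) (by linarith)), one_div,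
        inv_pow, ← one_div]
      exact h5
    rw [div_le_iff₀ hκ] at h
    rw [hk, ord]
    linarith
  have hkL : k ≤ L := d3_ord hκ h6 a2 (by linarith) (by linarith) h4
  have key := hsup t h9 (2 * t) (by linarith) le_rfl k hk1 hkL hg2 t ⟨by linarith, le_rfl⟩
  refine key.trans (Real.exp_le_exp.2 ?_)
  have b1 : (L + k ^ 2 * l) / (2 * k) ≤ c * s := d3_alg hκ hk0 (by linarith) a4 a5 hs2 hkl
  have b2 : s ≤ (1 + δ) * √(L * l) :=
    d3_big hδ0 (by linarith) (by linarith) (by linarith) a1 a3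
  have b3 : C * l ≤ δ * √(L * l) := d3_small (by linarith) (by linarith) hδ0 (by linarith) h1
  have b4 : c * s ≤ c * ((1 + δ) * √(L * l)) := by gcongr
  calc (L + k ^ 2 * l) / (2 * k) + C * l ≤ c * ((1 + δ) * √(L * l)) + δ * √(L * l) := by linarith
    _ = (c * (1 + δ) + δ) * √(L * l) := by ring
    _ = c' * √(L * l) := by rw [hδ1]

theorem good_of_size : S_GOOD := by
  intro c hc hS κ hκ
  set c' : ℝ := κ / 2 with hc'
  obtain ⟨t₀, ht₀⟩ := hS c' (by rw [hc']; linarith)
  obtain ⟨B, hB⟩ := (isCompact_Icc (a := (0:ℝ)) (b := max t₀ 1000)).exists_bound_of_continuousOn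
    Z_cont.continuousOn
  have e1 : ∀ᶠ T : ℝ in atTop, Real.log (max B 1) ≤ c' * Real.log (Real.log T) := by
    have := d3_tend_loglog.const_mul_atTop (show (0:ℝ) < c' by rw [hc']; linarith)
    exact this.eventually_ge_atTop _
  have e2 := d3_tend_loglog.eventually_ge_atTop 1
  obtain ⟨T₁, hT₁⟩ := eventually_atTop.1 (e1.and (e2.and (eventually_ge_atTop 1000)))
  refine ⟨T₁, fun T hT k hk2 hk => ?_⟩
  obtain ⟨h1, h2, h3⟩ := hT₁ T hT
  have hL1 : 6 ≤ Real.log T := by linarith [log_ge h3]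
  apply Pool.Agent.W5h69.ZT.good_of_sup h3 hk2
  set L : ℝ := Real.log T with hL
  set l : ℝ := Real.log L with hl
  have hL0 : 0 < L := by linarith
  have hc0 : 0 < c' := by rw [hc']; linarith
  have hlL : l ≤ L := by
    have := Real.log_le_sub_one_of_pos hL0
    linarith
  have hsl : l ≤ √(L * l) := by
    apply Real.le_sqrt_of_sq_le
    nlinarith
  have k1 : c' * √(L * l) ≤ l * ((k + 2) / 2) := by
    have h4 : κ * (√(L * l) / l) ≤ k := by
      rw [← d3_sqrt hL0 (by linarith : 0 < l)]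
      exact hk
    have h5 : κ * √(L * l) ≤ k * l := by
      rw [← mul_div_assoc, div_le_iff₀ (by linarith)] at h4
      exact h4
    rw [hc']
    nlinarith
  have k2 : Real.exp (c' * √(L * l)) ≤ L ^ ((k + 2) / 2) := by
    rw [Real.rpow_def_of_pos hL0]
    exact Real.exp_le_exp.2 k1
  intro t ht
  refine le_trans ?_ k2
  rcases le_total t (max t₀ 1000) with h | h
  · have h4 := hB t ⟨ht.1, h⟩
    rw [Real.norm_of_nonneg (Z_nonneg t)] at h4
    have h5 : Z t ≤ max B 1 := h4.trans (le_max_left _ _)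
    have h6 : max B 1 ≤ Real.exp (c' * l) := by
      rw [← Real.log_le_iff_le_exp (lt_of_lt_of_le one_pos (le_max_right _ _))]
      exact h1
    refine (h5.trans h6).trans (Real.exp_le_exp.2 ?_)
    gcongr
  · have h4 : t₀ ≤ t := (le_max_left _ _).trans h
    have h5 : 1000 ≤ t := (le_max_right _ _).trans h
    have h6 := ht₀ t h4
    refine le_trans h6 (Real.exp_le_exp.2 ?_)
    have h7 : Real.log t ≤ L := Real.log_le_log (by linarith) ht.2
    have h8 : 1 ≤ Real.log t := by linarith [log_ge h5]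
    have h9 : Real.log (Real.log t) ≤ l := Real.log_le_log (by linarith) h7
    have h10 : 0 ≤ Real.log (Real.log t) := Real.log_nonneg h8
    gcongr

end Pool.Agent.W5h24.SD
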