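import Pool.Agent.W5h24.SD.Defs

/-! (D4) additive duality -/

set_option autoImplicit false

open Complex MeasureTheory Set Filter Topology
open Pool.Agent.Results.MP_3d0d30_nt.ReductionsAndLargeValues

namespace Pool.Agent.W5h24.SD

/-- additive duality -/
def S_DUAL2 : Prop := ∃ C T₀ : ℝ, 1 ≤ C ∧ 1000 ≤ T₀ ∧ ∀ T : ℝ, T₀ ≤ T → ∀ T' : ℝ,
  T + Real.log T ^ 4 ≤ T' → T' ≤ 2 * T → ∀ k : ℝ, 1 ≤ k → Good k T → Good k T' →
  ∀ k' : ℝ, k ≤ k' → Real.log T ≤ k * (k' - C) * Real.log (Real.log T) → Good k' T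

/-- only the orders up to `√(log T / log log T) + C` matter -/
def S_RANGE2 : Prop := ∃ C : ℝ, 1 ≤ C ∧
  ((∃ T₀ : ℝ, ∀ T : ℝ, T₀ ≤ T → ∀ k : ℝ, 2 ≤ k → Good k T) ↔
    ∃ T₀ : ℝ, ∀ T : ℝ, T₀ ≤ T → ∀ k : ℝ, 2 ≤ k →
      k ≤ √(Real.log T / Real.log (Real.log T)) + C → Good k T)

/-- the size of the zeta function -/
def S_SIZE2 : Prop := (∃ T₀ : ℝ, ∀ T : ℝ, T₀ ≤ T → Good (√(Real.log T / Real.log (Real.log T))) (2 * T)) →
  ∃ C t₀ : ℝ, ∀ t : ℝ, t₀ ≤ t → Z t ≤
    Real.log t ^ C * Real.exp (√(Real.log t * Real.log (Real.log t)))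

lemma uncond : ∃ T₀ : ℝ, 1000 ≤ T₀ ∧ ∀ T : ℝ, T₀ ≤ T → ∀ k : ℝ, 2 ≤ k →
    Real.log T ≤ 2 * (k * Real.log (Real.log T)) → Good k T := by
  obtain ⟨t₀, -, hw⟩ := weyl (1 / 24) (by norm_num)
  obtain ⟨T₀, hT₀, hs⟩ := Pool.Agent.W5h69.ZT.sup_of_exp (a := 1 / 6 + 1 / 24) (b := 1 / 4)
    (by norm_num) (by norm_num) ⟨t₀, fun t ht => hw t ht⟩
  refine ⟨T₀, hT₀, fun T hT k hk hkl => ?_⟩
  have h3 : 1000 ≤ T := hT₀.trans hT
  have hll : 0 < Real.log (Real.log T) := by linarith [loglog_ge h3]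
  refine Pool.Agent.W5h69.ZT.good_of_sup h3 hk fun t ht => (hs T hT t ht).trans ?_
  apply Pool.Agent.W5h69.ZT.rpow_le_log h3
  nlinarith

theorem dual2_of_sup (h : S_SUP) : S_DUAL2 := by
  obtain ⟨C, T₁, hC, hT₁, hsup⟩ := h
  obtain ⟨T₂, hT₂, hun⟩ := uncond
  refine ⟨2 * C, max T₁ T₂, by linarith, hT₁.trans (le_max_left _ _), ?_⟩
  intro T hT T' hT1 hT2 k hk hg hg' k' hkk hdual
  have g1 : T₁ ≤ T := (le_max_left _ _).trans hT
  have g2 : T₂ ≤ T := (le_max_right _ _).trans hT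
  have g3 : 1000 ≤ T := hT₁.trans g1
  have hL := log_ge g3
  have hl := loglog_ge g3
  have hk0 : 0 < k := by linarith
  rcases le_or_gt k (Real.log T) with hkL | hkL
  · have hs := hsup T g1 T' hT1 hT2 k hk hkL hg'
    set L := Real.log T with hLdef
    have hL0 : 0 < L := by linarith
    have hl0 : 0 < Real.log L := by linarith
    refine reflect (κ := (L / (Real.log L * k) + k) / 2 + C) g3 (fun t ht => ?_) hk0.le hg hkk ?_
    · refine (hs t ht).trans (le_of_eq ?_)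
      rw [Real.rpow_def_of_pos hL0]
      congr 1
      field_simp
    · have h1 : L / (Real.log L * k) ≤ k' - 2 * C := by
        rw [div_le_iff₀ (by positivity)]
        nlinarith
      linarith
  · refine hun T g2 k' (by linarith) ?_
    nlinarith

lemma ratio_mono {x y : ℝ} (hx : 3 ≤ x) (hxy : x ≤ y) :
    x / Real.log x ≤ y / Real.log y := by
  have he : Real.exp 1 ≤ 3 := by
    have := Real.exp_one_lt_d9
    linarith
  have h : Real.log y / y ≤ Real.log x / x :=
    Real.log_div_self_antitoneOn (a := x) (b := y) (by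
      rw [Set.mem_Ici]
      linarith) (by
      rw [Set.mem_Ici]
      linarith) hxy
  have hx0 : 0 < Real.log x := Real.log_pos (by linarith)
  have hy0 : 0 < Real.log y := Real.log_pos (by linarith)
  rw [div_le_div_iff₀ (by linarith) (by linarith)] at h
  rw [div_le_div_iff₀ hx0 hy0]
  linarith

theorem range2_of_dual2 (h : S_DUAL2) : S_RANGE2 := by
  obtain ⟨C, T₁, hC, hT₁, hd⟩ := h
  refine ⟨C, hC, ⟨fun ⟨T₀, hT₀⟩ => ⟨T₀, fun T hT k hk _ => hT₀ T hT k hk⟩, ?_⟩⟩
  rintro ⟨T₀, hT₀⟩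
  obtain ⟨T₂, hT₂⟩ : ∃ T₂ : ℝ, ∀ T : ℝ, T₂ ≤ T → Real.log T ^ 4 ≤ T := by
    have h1 : ∀ᶠ y : ℝ in atTop, ‖Real.log y ^ 4‖ ≤ 1 * ‖id y‖ :=
      (Real.isLittleO_pow_log_id_atTop (n := 4)).def (by norm_num)
    obtain ⟨T₁, hT₁⟩ := eventually_atTop.1 (h1.and (eventually_ge_atTop 1))
    refine ⟨T₁, fun T hT => ?_⟩
    obtain ⟨h2, h3⟩ := hT₁ T hT
    rw [one_mul, id, Real.norm_of_nonneg (by linarith : (0:ℝ) ≤ T)] at h2
    exact (le_abs_self _).trans h2
  have hlim := Pool.Agent.W5h69.ZT.tend_ratio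
  obtain ⟨T₃, hT₃⟩ := eventually_atTop.1 (hlim.eventually_ge_atTop 4)
  refine ⟨max (max T₀ T₁) (max T₂ T₃), fun T hT k hk => ?_⟩
  have g0 : T₀ ≤ T := (le_max_left _ _).trans ((le_max_left _ _).trans hT)
  have g1 : T₁ ≤ T := (le_max_right _ _).trans ((le_max_left _ _).trans hT)
  have g2 : T₂ ≤ T := (le_max_left _ _).trans ((le_max_right _ _).trans hT)
  have g3 : T₃ ≤ T := (le_max_right _ _).trans ((le_max_right _ _).trans hT)
  have g4 : 1000 ≤ T := hT₁.trans g1
  have hL := log_ge g4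
  have hl := loglog_ge g4
  have hrat := hT₃ T g3
  have hs2 : 2 ≤ √(Real.log T / Real.log (Real.log T)) := by
    rw [show (2:ℝ) = √4 by
      rw [show (4:ℝ) = 2 ^ 2 by norm_num, Real.sqrt_sq (by norm_num)]]
    exact Real.sqrt_le_sqrt hrat
  set s := √(Real.log T / Real.log (Real.log T)) with hs
  have hss : s * s * Real.log (Real.log T) = Real.log T := by
    rw [hs, Real.mul_self_sqrt (by positivity)]
    field_simp
  rcases le_total k (s + C) with hks | hks
  · exact hT₀ T g0 k hk hks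
  · have hj2 : 2 ≤ s + C := by linarith
    have hgT : Good (s + C) T := hT₀ T g0 (s + C) hj2 le_rfl
    have hgT' : Good (s + C) (2 * T) := by
      refine hT₀ (2 * T) (by linarith) (s + C) hj2 ?_
      have h1 : Real.log T ≤ Real.log (2 * T) := Real.log_le_log (by linarith) (by linarith)
      have h2 := ratio_mono (x := Real.log T) (y := Real.log (2 * T)) (by linarith) h1
      have h3 := Real.sqrt_le_sqrt h2
      linarith
    refine hd T g1 (2 * T) (by linarith [hT₂ T g2]) le_rfl (s + C) (by linarith) hgT hgT' k hks ?_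
    have hs0 : 0 < s := by linarith
    have h5 : s * s ≤ (s + C) * (k - C) := by
      have h6 : s ≤ k - C := by linarith
      have h7 : s * s ≤ s * (k - C) := by gcongr
      have h8 : s * (k - C) ≤ (s + C) * (k - C) := by
        have h9 : 0 ≤ k - C := by linarith
        nlinarith
      linarith
    calc Real.log T = s * s * Real.log (Real.log T) := hss.symm
      _ ≤ (s + C) * (k - C) * Real.log (Real.log T) := by gcongr

theorem size2_of_sup (h : S_SUP) : S_SIZE2 := by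
  obtain ⟨C, T₁, hC, hT₁, hsup⟩ := h
  rintro ⟨T₀, hT₀⟩
  obtain ⟨T₂, hT₂⟩ : ∃ T₂ : ℝ, ∀ T : ℝ, T₂ ≤ T → Real.log T ^ 4 ≤ T := by
    have h1 : ∀ᶠ y : ℝ in atTop, ‖Real.log y ^ 4‖ ≤ 1 * ‖id y‖ :=
      (Real.isLittleO_pow_log_id_atTop (n := 4)).def (by norm_num)
    obtain ⟨T₁, hT₁⟩ := eventually_atTop.1 (h1.and (eventually_ge_atTop 1))
    refine ⟨T₁, fun T hT => ?_⟩
    obtain ⟨h2, h3⟩ := hT₁ T hT
    rw [one_mul, id, Real.norm_of_nonneg (by linarith : (0:ℝ) ≤ T)] at h2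
    exact (le_abs_self _).trans h2
  have hlim := Pool.Agent.W5h69.ZT.tend_ratio
  obtain ⟨T₃, hT₃⟩ := eventually_atTop.1 (hlim.eventually_ge_atTop 4)
  refine ⟨C, max (max T₀ T₁) (max T₂ T₃), fun T hT => ?_⟩
  have g0 : T₀ ≤ T := (le_max_left _ _).trans ((le_max_left _ _).trans hT)
  have g1 : T₁ ≤ T := (le_max_right _ _).trans ((le_max_left _ _).trans hT)
  have g2 : T₂ ≤ T := (le_max_left _ _).trans ((le_max_right _ _).trans hT)
  have g3 : T₃ ≤ T := (le_max_right _ _).trans ((le_max_right _ _).trans hT)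
  have g4 : 1000 ≤ T := hT₁.trans g1
  have hL := log_ge g4
  have hl := loglog_ge g4
  have hrat := hT₃ T g3
  have hs2 : 2 ≤ √(Real.log T / Real.log (Real.log T)) := by
    rw [show (2:ℝ) = √4 by
      rw [show (4:ℝ) = 2 ^ 2 by norm_num, Real.sqrt_sq (by norm_num)]]
    exact Real.sqrt_le_sqrt hrat
  have hg := hT₀ T g0
  set s := √(Real.log T / Real.log (Real.log T)) with hs
  have hss : s * s * Real.log (Real.log T) = Real.log T := by
    rw [hs, Real.mul_self_sqrt (by positivity)]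
    field_simp
  have hs0 : 0 < s := by linarith
  have hsL : s ≤ Real.log T := by
    rw [← hss]
    nlinarith [mul_pos hs0 hs0]
  have h1 := hsup T g1 (2 * T) (by linarith [hT₂ T g2]) le_rfl s (by linarith) hsL hg T
    ⟨by linarith, le_rfl⟩
  refine h1.trans (le_of_eq ?_)
  have hL0 : 0 < Real.log T := by linarith
  have hl0 : 0 < Real.log (Real.log T) := by linarith
  have e1 : (Real.log T + s ^ 2 * Real.log (Real.log T)) / (2 * s) =
      √(Real.log T * Real.log (Real.log T)) := by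
    symm
    rw [Real.sqrt_eq_iff_mul_self_eq (by positivity) (by positivity)]
    have e2 : s ^ 2 * Real.log (Real.log T) = Real.log T := by
      have e4 : s ^ 2 * Real.log (Real.log T) = s * s * Real.log (Real.log T) := by ring
      rw [e4]
      exact hss
    rw [e2]
    have e3 : (Real.log T + Real.log T) / (2 * s) = s * Real.log (Real.log T) := by
      rw [div_eq_iff (by positivity)]
      linarith [hss]
    rw [e3]
    calc Real.log T * Real.log (Real.log T) =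
        (s * s * Real.log (Real.log T)) * Real.log (Real.log T) := by rw [hss]
      _ = s * Real.log (Real.log T) * (s * Real.log (Real.log T)) := by ring
  rw [e1, Real.rpow_def_of_pos hL0, ← Real.exp_add]
  congr 1
  ring

end Pool.Agent.W5h24.SD
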