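import Pool.Agent.W5h69.ZT

/-!
MP_3d0d30_nt: the inequality of Q2 for the orders `k` and `log T / (k log log T)`.
`Z t = |ζ(1/2 + it)|`, `M k T = ∫_0^T Z^(2k)`, `Good k T` is `M k T ≤ T (log T)^(k²)`.
-/

set_option autoImplicit false

open Complex MeasureTheory Set Filter Topology
open Pool.Agent.Results.MP_3d0d30_nt.ReductionsAndLargeValues

namespace Pool.Agent.W5h24.SD

/-- (A) the zeta function near the critical line (helper24) -/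
def S_STRIP : Prop := ∃ C T₀ : ℝ, 1 ≤ C ∧ 1000 ≤ T₀ ∧ ∀ T : ℝ, T₀ ≤ T → ∀ t : ℝ, 10 ≤ t → t ≤ 3 * T →
  ∀ B : ℝ, 1 ≤ B → (∀ u : ℝ, |u - t| ≤ Real.log T → Z u ≤ B) →
  ∀ σ : ℝ, |σ - 1 / 2| ≤ 1 / Real.log T → ‖riemannZeta (σ + t * I)‖ ≤ C * B

/-- (B) large values persist (helper24) -/
def S_PERS : Prop := ∃ c T₀ : ℝ, 0 < c ∧ c ≤ 1 ∧ 1000 ≤ T₀ ∧ ∀ T : ℝ, T₀ ≤ T → ∀ t : ℝ,
  2 * Real.log T ^ 4 ≤ t → t ≤ T → 1 ≤ Z t → ∃ a b : ℝ, t - Real.log T ^ 4 ≤ a ∧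
    b = a + c / Real.log T ∧ b ≤ t + Real.log T ^ 4 ∧ ∀ s ∈ Icc a b, Z t / 2 ≤ Z s

/-- (C) one good pair bounds the zeta function; task (C): `theorem sup_of_pers : S_PERS → S_SUP` -/
def S_SUP : Prop := ∃ C T₀ : ℝ, 1 ≤ C ∧ 1000 ≤ T₀ ∧ ∀ T : ℝ, T₀ ≤ T → ∀ T' : ℝ,
  T + Real.log T ^ 4 ≤ T' → T' ≤ 2 * T → ∀ k : ℝ, 1 ≤ k → k ≤ Real.log T → Good k T' →
  ∀ t ∈ Icc (0:ℝ) T, Z t ≤ Real.exp ((Real.log T + k ^ 2 * Real.log (Real.log T)) / (2 * k) +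
    C * Real.log (Real.log T))

/-- (D1) the duality `k ↔ log T / (k log log T)` -/
def S_DUAL : Prop := ∀ ε : ℝ, 0 < ε → ∃ T₀ : ℝ, ∀ T : ℝ, T₀ ≤ T → ∀ T' : ℝ,
  T + Real.log T ^ 4 ≤ T' → T' ≤ 2 * T → ∀ k : ℝ, 1 ≤ k → Good k T' →
  ∀ k' : ℝ, (1 + ε) * k ≤ k' → (1 + ε) * Real.log T ≤ k * k' * Real.log (Real.log T) → Good k' T

/-- (D1) above the self-dual point the inequality for one order gives the larger orders -/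
def S_MONO : Prop := ∀ ε : ℝ, 0 < ε → ∃ T₀ : ℝ, ∀ T : ℝ, T₀ ≤ T → ∀ T' : ℝ,
  T + Real.log T ^ 4 ≤ T' → T' ≤ 2 * T → ∀ k : ℝ,
  (1 + ε) * Real.log T ≤ k ^ 2 * Real.log (Real.log T) → Good k T → Good k T' →
  ∀ k' : ℝ, k ≤ k' → Good k' T

/-- the size of the zeta function: `|ζ(1/2 + it)| ≤ exp ((c + o(1)) √(log t log log t))` -/
def Size (c : ℝ) : Prop := ∀ c' : ℝ, c < c' → ∃ t₀ : ℝ, ∀ t : ℝ, t₀ ≤ t →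
  ‖riemannZeta (1 / 2 + t * I)‖ ≤ Real.exp (c' * √(Real.log t * Real.log (Real.log t)))

/-- `k = κ √(log T / log log T)` -/
noncomputable def ord (κ T : ℝ) : ℝ := κ * √(Real.log T / Real.log (Real.log T))

/-- (D2) task: `theorem range_of_dual : S_DUAL → S_RANGE` -/
def S_RANGE : Prop := ∀ ε : ℝ, 0 < ε → ((∃ T₀ : ℝ, ∀ T : ℝ, T₀ ≤ T → ∀ k : ℝ, 2 ≤ k → Good k T) ↔
  ∃ T₀ : ℝ, ∀ T : ℝ, T₀ ≤ T → ∀ k : ℝ, 2 ≤ k → k ≤ ord (1 + ε) T → Good k T)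

/-- (D2) task: `theorem ord_of_dual : S_DUAL → S_ORD` -/
def S_ORD : Prop := ∀ κ : ℝ, 0 < κ → (∃ T₀ : ℝ, ∀ T : ℝ, T₀ ≤ T → Good (ord κ T) T) →
  ∀ κ' : ℝ, κ < κ' → 1 / κ < κ' → ∃ T₀ : ℝ, ∀ T : ℝ, T₀ ≤ T → ∀ k : ℝ, ord κ' T ≤ k → Good k T

/-- (D3) task: `theorem size_of_sup : S_SUP → S_SIZE` -/
def S_SIZE : Prop := ∀ κ : ℝ, 0 < κ → (∃ T₀ : ℝ, ∀ T : ℝ, T₀ ≤ T → Good (ord κ T) T) →
  Size ((κ + 1 / κ) / 2)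

/-- (D3) task: `theorem good_of_size : S_GOOD` -/
def S_GOOD : Prop := ∀ c : ℝ, 0 < c → Size c → ∀ κ : ℝ, 2 * c < κ → ∃ T₀ : ℝ, ∀ T : ℝ, T₀ ≤ T →
  ∀ k : ℝ, 2 ≤ k → ord κ T ≤ k → Good k T

end Pool.Agent.W5h24.SD
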