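import Pool.Agent.W5h24.SD.D1
import Pool.Agent.W5h24.SD.D2
import Pool.Agent.W5h24.SD.D3
import Pool.Agent.W5h24.SD.D4

/-! assembly: everything from `S_SUP` -/

set_option autoImplicit false

open Complex MeasureTheory Set Filter Topology
open Pool.Agent.Results.MP_3d0d30_nt.ReductionsAndLargeValues

namespace Pool.Agent.W5h24.SD

lemma log4_le : ∃ T₁ : ℝ, 1000 ≤ T₁ ∧ ∀ T : ℝ, T₁ ≤ T → Real.log T ^ 4 ≤ T := by
  have h1 : ∀ᶠ y : ℝ in atTop, ‖Real.log y ^ 4‖ ≤ 1 * ‖id y‖ :=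
    (Real.isLittleO_pow_log_id_atTop (n := 4)).def (by norm_num)
  obtain ⟨T₁, hT₁⟩ := eventually_atTop.1 (h1.and (eventually_ge_atTop 1000))
  refine ⟨max T₁ 1000, le_max_right _ _, fun T hT => ?_⟩
  obtain ⟨h2, h3⟩ := hT₁ T ((le_max_left _ _).trans hT)
  rw [one_mul, id, Real.norm_of_nonneg (by linarith : (0:ℝ) ≤ T)] at h2
  exact (le_abs_self _).trans h2

/-- a fixed order -/
theorem fixed_of_sup (h : S_SUP) (k : ℝ) (hk : 1 ≤ k)
    (hg : ∃ T₀ : ℝ, ∀ T : ℝ, T₀ ≤ T → Good k T) :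
    (∃ C T₀ : ℝ, ∀ T : ℝ, T₀ ≤ T → ∀ k' : ℝ,
      Real.log T / (k * Real.log (Real.log T)) + C ≤ k' → Good k' T) ∧
    ∃ C t₀ : ℝ, ∀ t : ℝ, t₀ ≤ t → Z t ≤ t ^ (1 / (2 * k)) * Real.log t ^ C := by
  obtain ⟨T₀, hT₀⟩ := hg
  obtain ⟨T₂, hT₂, h4⟩ := log4_le
  constructor
  · obtain ⟨C, T₁, hC, hT₁, hd⟩ := dual2_of_sup h
    have hlim : ∀ᶠ T : ℝ in atTop, k * k ≤ Real.log T / Real.log (Real.log T) :=
      Pool.Agent.W5h69.ZT.tend_ratio.eventually_ge_atTop _
    obtain ⟨T₃, hT₃⟩ := eventually_atTop.1 hlim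
    refine ⟨C, max (max T₀ T₁) (max T₂ T₃), fun T hT k' hk' => ?_⟩
    have g0 : T₀ ≤ T := (le_max_left _ _).trans ((le_max_left _ _).trans hT)
    have g1 : T₁ ≤ T := (le_max_right _ _).trans ((le_max_left _ _).trans hT)
    have g2 : T₂ ≤ T := (le_max_left _ _).trans ((le_max_right _ _).trans hT)
    have g3 : T₃ ≤ T := (le_max_right _ _).trans ((le_max_right _ _).trans hT)
    have g4 : 1000 ≤ T := hT₁.trans g1
    have hL := log_ge g4
    have hl := loglog_ge g4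
    have h5 := hT₃ T g3
    have hk0 : 0 < k := by linarith
    have e : Real.log T / (k * Real.log (Real.log T)) =
        (Real.log T / Real.log (Real.log T)) / k := by
      rw [div_div, mul_comm]
    have h6 : k ≤ Real.log T / (k * Real.log (Real.log T)) := by
      rw [e, le_div_iff₀ hk0]
      exact h5
    refine hd T g1 (2 * T) (by linarith [h4 T g2]) le_rfl k hk (hT₀ T g0) (hT₀ _ (by linarith)) k'
      (by linarith) ?_
    have h7 : Real.log T / (k * Real.log (Real.log T)) ≤ k' - C := by linarith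
    rw [div_le_iff₀ (by positivity)] at h7
    nlinarith
  · obtain ⟨C, T₁, hC, hT₁, hsup⟩ := h
    obtain ⟨T₃, hT₃⟩ := eventually_atTop.1 (Real.tendsto_log_atTop.eventually_ge_atTop k)
    refine ⟨k / 2 + C, max (max T₀ T₁) (max T₂ T₃), fun T hT => ?_⟩
    have g0 : T₀ ≤ T := (le_max_left _ _).trans ((le_max_left _ _).trans hT)
    have g1 : T₁ ≤ T := (le_max_right _ _).trans ((le_max_left _ _).trans hT)
    have g2 : T₂ ≤ T := (le_max_left _ _).trans ((le_max_right _ _).trans hT)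
    have g3 : T₃ ≤ T := (le_max_right _ _).trans ((le_max_right _ _).trans hT)
    have g4 : 1000 ≤ T := hT₁.trans g1
    have hT0 : 0 < T := by linarith
    have hL0 : 0 < Real.log T := by linarith [log_ge g4]
    have hk0 : 0 < k := by linarith
    have h5 := hsup T g1 (2 * T) (by linarith [h4 T g2]) le_rfl k hk (hT₃ T g3)
      (hT₀ _ (by linarith)) T ⟨hT0.le, le_rfl⟩
    refine h5.trans (le_of_eq ?_)
    rw [Real.rpow_def_of_pos hT0, Real.rpow_def_of_pos hL0, ← Real.exp_add]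
    congr 1
    field_simp
    ring

end Pool.Agent.W5h24.SD
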